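import Pool.Agent.P8H31.VC.Stm2

/-!
Project VC (helper31), packages K2 and K3, by helper86.
-/

set_option autoImplicit false
open MeasureTheory Filter Topology Complex
open scoped ContDiff ENNReal

namespace Pool.Agent.P8H86.VC

open Pool.Agent.W745.RW Pool.Agent.TH294.RS Pool.Agent.P8H31.VC

noncomputable section

theorem k2 : S_K2 := by
  intro Ω G χ z v r hΩ hG hχ hr hz
  obtain ⟨S, hS⟩ : ∃ S : Set ℂ, S = tsupport χ := ⟨_, rfl⟩
  have hSc : IsCompact S := by rw [hS]; exact hχ.2.1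
  have hSB : S ⊆ Metric.ball (0 : ℂ) 1 := by rw [hS]; exact hχ.2.2
  have z0 : ∀ c, c ∉ S → χ c = 0 := fun c hc => image_eq_zero_of_notMem_tsupport (by rwa [hS] at hc)
  have z1 : ∀ c, c ∉ S → fderiv ℝ χ c v = 0 := fun c hc => by
    rw [fderiv_of_notMem_tsupport ℝ (by rwa [hS] at hc)]; rfl
  have cχ : Continuous χ := hχ.1.continuous
  have cχ' : Continuous (fun c => fderiv ℝ χ c v) :=
    ((hχ.1.fderiv_right (m := ∞) le_rfl).clm_apply contDiff_const).continuous
  have hA : ContDiff ℝ ∞ (fun c : ℂ => z + r * c) := by fun_prop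
  have hmem : ∀ c ∈ S, z + r * c ∈ Ω := fun c hc => hz c (Metric.ball_subset_closedBall (hSB hc))
  have sG : ∀ c, z + r * c ∈ Ω → ContDiffAt ℝ ∞ (fun c : ℂ => G (z + r * c)) c := fun c hc =>
    (hG.contDiffAt (hΩ.mem_nhds hc)).comp c hA.contDiffAt
  obtain ⟨U, hU⟩ : ∃ U : ℂ → ℝ, U = fun c => χ c * G (z + r * c) := ⟨_, rfl⟩
  have zU : ∀ c, c ∉ S → U c = 0 := fun c hc => by
    rw [hU]; show χ c * _ = 0; rw [z0 c hc, zero_mul]
  have nhU : ∀ c, c ∉ S → U =ᶠ[𝓝 c] fun _ => 0 := by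
    intro c hc
    filter_upwards [hSc.isClosed.isOpen_compl.mem_nhds (hc : c ∈ Sᶜ)] with w hw
    exact zU w hw
  have gU : ContDiff ℝ ∞ U := by
    refine contDiff_iff_contDiffAt.2 fun c => ?_
    by_cases hc : c ∈ S
    · rw [hU]
      exact hχ.1.contDiffAt.mul (sG c (hmem c hc))
    · exact contDiffAt_const.congr_of_eventuallyEq (nhU c hc)
  obtain ⟨iU, jU⟩ := Pool.Agent.W366.RW.int_zero U gU (HasCompactSupport.intro hSc zU) v
  have key : ∀ c, fderiv ℝ U c v = r * (χ c * fderiv ℝ G (z + r * c) v) +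
      fderiv ℝ χ c v * G (z + r * c) := by
    intro c
    by_cases hc : c ∈ S
    · have d1 : HasFDerivAt χ (fderiv ℝ χ c) c :=
        (hχ.1.differentiable (by simp) c).hasFDerivAt
      have d2 : HasFDerivAt G (fderiv ℝ G (z + r * c)) (z + r * c) :=
        ((hG.contDiffAt (hΩ.mem_nhds (hmem c hc))).differentiableAt (by simp)).hasFDerivAt
      have d3 : HasFDerivAt (fun c : ℂ => z + r * c)
          ((r : ℂ) • (ContinuousLinearMap.id ℝ ℂ)) c :=
        ((hasFDerivAt_id c).const_mul (r : ℂ)).const_add z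
      have d5 := (d1.mul (d2.comp c d3)).fderiv
      have e3 := congrArg (fun L : ℂ →L[ℝ] ℝ => L v) d5
      rw [hU]
      refine Eq.trans e3 ?_
      have e4 : fderiv ℝ G (z + r * c) ((r : ℂ) * v) = r * fderiv ℝ G (z + r * c) v := by
        have : (r : ℂ) * v = r • v := by rw [Complex.real_smul]
        rw [this, map_smul, smul_eq_mul]
      simp only [add_apply, smul_apply, smul_eq_mul, ContinuousLinearMap.comp_apply,
        ContinuousLinearMap.id_apply, Function.comp_apply]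
      rw [e4]; ring
    · rw [z0 c hc, z1 c hc, (nhU c hc).fderiv_eq]; simp
  have cG1 : ContinuousOn (fun c => G (z + r * c)) S := fun c hc =>
    (sG c (hmem c hc)).continuousAt.continuousWithinAt
  have cG2 : ContinuousOn (fun c => fderiv ℝ G (z + r * c) v) S := by
    have h1 : ContinuousOn (fun w => fderiv ℝ G w v) Ω :=
      (Pool.Agent.W98.RW.cd_fderiv hΩ hG v).continuousOn
    exact h1.comp hA.continuous.continuousOn hmem
  have i1 : Integrable (fun c => r * (χ c * fderiv ℝ G (z + r * c) v)) :=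
    Pool.Agent.TH421.AC.rint hSc (continuousOn_const.mul (cχ.continuousOn.mul cG2)) fun c hc => by
      rw [z0 c hc]; ring
  have i2 : Integrable (fun c => fderiv ℝ χ c v * G (z + r * c)) :=
    Pool.Agent.TH421.AC.rint hSc (cχ'.continuousOn.mul cG1) fun c hc => by
      rw [z1 c hc]; ring
  simp only [key] at jU
  rw [integral_add i1 i2, integral_const_mul] at jU
  have o1 : ∫ c in Metric.ball (0 : ℂ) 1, χ c * fderiv ℝ G (z + r * c) v =
      ∫ c, χ c * fderiv ℝ G (z + r * c) v :=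
    setIntegral_eq_integral_of_forall_compl_eq_zero fun c hc => by
      rw [z0 c (fun h => hc (hSB h)), zero_mul]
  have o2 : ∫ c in Metric.ball (0 : ℂ) 1, fderiv ℝ χ c v * G (z + r * c) =
      ∫ c, fderiv ℝ χ c v * G (z + r * c) :=
    setIntegral_eq_integral_of_forall_compl_eq_zero fun c hc => by
      rw [z1 c (fun h => hc (hSB h)), zero_mul]
  rw [o1, o2]
  have hr' : r ≠ 0 := hr.ne'
  field_simp
  linarith

theorem k3 : S_K3 := by
  intro τ hτ
  obtain ⟨s, hs⟩ : ∃ s : ℝ, s = min (τ / 2) (1 / 2) := ⟨_, rfl⟩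
  have s0 : 0 < s := by rw [hs]; positivity
  have s1 : s ≤ 1 / 2 := by rw [hs]; exact min_le_right _ _
  have s2 : s ≤ τ / 2 := by rw [hs]; exact min_le_left _ _
  have hKB : Metric.closedBall (0 : ℂ) (1 - s) ⊆ Metric.ball (0 : ℂ) 1 :=
    Metric.closedBall_subset_ball (by linarith)
  obtain ⟨ψ, hψ, hψ1, ψ0, ψ1⟩ := exists_cut Metric.isOpen_ball
    (isCompact_closedBall (0 : ℂ) (1 - s)) hKB
  have hpi := Real.pi_pos
  refine ⟨fun c => (1 / Real.pi) * ψ c, ⟨contDiff_const.mul hψ.1, hψ.2.1.mul_left, ?_⟩, ?_⟩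
  · refine (tsupport_mul_subset_right (f := fun _ : ℂ => (1 / Real.pi : ℝ)) (g := ψ)).trans
      hψ.2.2
  have e1 : ∀ c, |1 / Real.pi - (1 / Real.pi) * ψ c| = (1 / Real.pi) * (1 - ψ c) := by
    intro c
    have h1 : 1 / Real.pi - (1 / Real.pi) * ψ c = (1 / Real.pi) * (1 - ψ c) := by ring
    rw [h1, abs_of_nonneg (mul_nonneg (by positivity) (by linarith [ψ1 c]))]
  simp only [e1]
  have i1 : IntegrableOn (fun _ : ℂ => (1 : ℝ)) (Metric.ball (0 : ℂ) 1) :=
    (continuousOn_const.integrableOn_compact (isCompact_closedBall (0 : ℂ) 1)).mono_set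
      Metric.ball_subset_closedBall
  have i2 : IntegrableOn ψ (Metric.ball (0 : ℂ) 1) :=
    (hψ.1.continuous.continuousOn.integrableOn_compact (isCompact_closedBall (0 : ℂ) 1)).mono_set
      Metric.ball_subset_closedBall
  rw [integral_const_mul, integral_sub i1 i2]
  have v1 : ∫ _c in Metric.ball (0 : ℂ) 1, (1 : ℝ) = Real.pi := by
    rw [setIntegral_const, smul_eq_mul, mul_one, Measure.real, Complex.volume_ball]
    simp
  have v2 : ∫ c in Metric.closedBall (0 : ℂ) (1 - s), ψ c = Real.pi * (1 - s) ^ 2 := by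
    rw [setIntegral_congr_fun (g := fun _ => (1 : ℝ)) Metric.isClosed_closedBall.measurableSet
      hψ1, setIntegral_const, smul_eq_mul, mul_one, Measure.real, Complex.volume_closedBall]
    rw [ENNReal.toReal_mul, ENNReal.toReal_pow, ENNReal.toReal_ofReal (by linarith)]
    simp [mul_comm]
  have v3 : ∫ c in Metric.closedBall (0 : ℂ) (1 - s), ψ c ≤ ∫ c in Metric.ball (0 : ℂ) 1, ψ c :=
    setIntegral_mono_set i2 (ae_of_all _ ψ0) hKB.eventuallyLE
  rw [v1]
  rw [v2] at v3
  have h1 : (1 / Real.pi) * (Real.pi - ∫ c in Metric.ball (0 : ℂ) 1, ψ c) ≤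
      (1 / Real.pi) * (Real.pi - Real.pi * (1 - s) ^ 2) :=
    mul_le_mul_of_nonneg_left (by linarith) (by positivity)
  refine h1.trans ?_
  have h2 : (1 / Real.pi) * (Real.pi - Real.pi * (1 - s) ^ 2) = 1 - (1 - s) ^ 2 := by
    field_simp
  rw [h2]
  nlinarith

end

end Pool.Agent.P8H86.VC



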