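import Pool.Agent.P8H31.VC.Stm

/-!
Project VC (helper31), packages MC and FU, by helper86.
-/

set_option autoImplicit false
open MeasureTheory Filter Topology Complex
open scoped ContDiff ENNReal

namespace Pool.Agent.P8H86.VC

open Pool.Agent.P8H31.VC

noncomputable section

/-- a closed neighbourhood of a compact set -/
lemma exists_nbh {Ω S : Set ℂ} (hΩ : IsOpen Ω) (hS : IsCompact S) (hSΩ : S ⊆ Ω) :
    ∃ r0 : ℝ, 0 < r0 ∧ ∃ K : Set ℂ, IsCompact K ∧ K ⊆ Ω ∧
      ∀ r : ℝ, 0 ≤ r → r ≤ r0 → ∀ z ∈ S, ∀ c ∈ Metric.closedBall (0 : ℂ) 1, z + r * c ∈ K := by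
  obtain ⟨r0, hr0, hK⟩ := hS.exists_cthickening_subset_open hΩ hSΩ
  refine ⟨r0, hr0, Metric.cthickening r0 S, hS.cthickening, hK, ?_⟩
  intro r hr hr1 z hz c hc
  refine Metric.mem_cthickening_of_dist_le (z + r * c) z r0 S hz ?_
  rw [dist_eq_norm, add_sub_cancel_left, norm_mul, norm_real, Real.norm_eq_abs, abs_of_nonneg hr]
  have h1 : ‖c‖ ≤ 1 := by simpa using hc
  nlinarith [norm_nonneg c]

theorem mc : S_MC := by
  intro Ω S hΩ hS hSΩ
  obtain ⟨r0, hr0, K, hK, hKΩ, hm⟩ := exists_nbh hΩ hS hSΩ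
  refine ⟨r0, hr0, fun f hf r hr hr1 => ?_⟩
  obtain ⟨C, hC⟩ := hK.exists_bound_of_continuousOn (hf.mono hKΩ)
  have hsub : ∀ c ∈ Metric.ball (0 : ℂ) 1, c ∈ Metric.closedBall (0 : ℂ) 1 := fun c hc =>
    Metric.ball_subset_closedBall hc
  unfold mean
  refine continuousOn_const.mul ?_
  refine continuousOn_of_dominated (bound := fun _ => C) ?_ ?_ ?_ ?_
  · intro z hz
    refine ContinuousOn.aestronglyMeasurable ?_ measurableSet_ball
    refine (hf.mono hKΩ).comp (by fun_prop) fun c hc => hm r hr hr1 z hz c (hsub c hc)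
  · intro z hz
    filter_upwards [ae_restrict_mem measurableSet_ball] with c hc
    exact hC _ (hm r hr hr1 z hz c (hsub c hc))
  · exact continuousOn_const.integrableOn_compact (isCompact_closedBall (0 : ℂ) 1) |>.mono_set
      Metric.ball_subset_closedBall
  · filter_upwards [ae_restrict_mem measurableSet_ball] with c hc
    exact (hf.mono hKΩ).comp (by fun_prop) fun z hz => hm r hr hr1 z hz c (hsub c hc)

theorem fu : S_FU := by
  intro Ω φ hΩ hφ hφc hφΩ hφ0
  obtain ⟨r0, hr0, K, hK, hKΩ, hm⟩ := exists_nbh hΩ hφc hφΩ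
  refine ⟨r0, hr0, fun f hf r hr hr1 Z hZ hZS ε hε => ?_⟩
  have cF : ContinuousOn (fun p : ℂ × ℂ => φ p.1 * f (p.1 + r * p.2))
      (tsupport φ ×ˢ Metric.closedBall (0 : ℂ) 1) := by
    refine (hφ.comp continuous_fst).continuousOn.mul ?_
    refine (hf.mono hKΩ).comp (by fun_prop) fun p hp => ?_
    exact hm r hr hr1 p.1 hp.1 p.2 hp.2
  have iF : IntegrableOn (fun p : ℂ × ℂ => φ p.1 * f (p.1 + r * p.2))
      (Z ×ˢ Metric.ball (0 : ℂ) 1) (volume.prod volume) := by
    have h1 : IntegrableOn (fun p : ℂ × ℂ => φ p.1 * f (p.1 + r * p.2))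
      (tsupport φ ×ˢ Metric.closedBall (0 : ℂ) 1) (volume.prod volume) :=
      cF.integrableOn_compact (hφc.isCompact.prod (isCompact_closedBall (0 : ℂ) 1))
    exact h1.mono_set (Set.prod_mono hZS Metric.ball_subset_closedBall)
  have iF' : Integrable (Function.uncurry fun z c : ℂ => φ z * f (z + r * c))
      ((volume.restrict Z).prod (volume.restrict (Metric.ball (0 : ℂ) 1))) := by
    rw [Measure.prod_restrict]
    exact iF
  have e1 : ∫ z in Z, φ z * mean r f z = (1 / Real.pi) *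
      ∫ z in Z, ∫ c in Metric.ball (0 : ℂ) 1, φ z * f (z + r * c) := by
    rw [← integral_const_mul]
    congr 1
    funext z
    rw [integral_const_mul]
    unfold mean
    ring
  rw [e1, integral_integral_swap iF']
  have i2 : IntegrableOn (fun c => ∫ z in Z, φ z * f (z + r * c)) (Metric.ball (0 : ℂ) 1) :=
    iF'.integral_prod_right
  have i3 : IntegrableOn (fun _ : ℂ => ε) (Metric.ball (0 : ℂ) 1) :=
    continuousOn_const.integrableOn_compact (isCompact_closedBall (0 : ℂ) 1) |>.mono_set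
      Metric.ball_subset_closedBall
  have h1 : ∫ c in Metric.ball (0 : ℂ) 1, ∫ z in Z, φ z * f (z + r * c) ≤
      ∫ _c in Metric.ball (0 : ℂ) 1, ε :=
    setIntegral_mono_on i2 i3 measurableSet_ball hε
  have h2 : ∫ _c in Metric.ball (0 : ℂ) 1, ε = Real.pi * ε := by
    rw [setIntegral_const, smul_eq_mul]
    congr 1
    rw [Measure.real, Complex.volume_ball]
    simp
  rw [h2] at h1
  have h3 := mul_le_mul_of_nonneg_left h1 (show 0 ≤ 1 / Real.pi by positivity)
  refine h3.trans (le_of_eq ?_)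
  have := Real.pi_ne_zero
  field_simp

end

end Pool.Agent.P8H86.VC



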