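import Pool.Agent.P8H86.VC.K45

/-!
Project VC (helper31), package K1, by helper86.
-/

set_option autoImplicit false
open MeasureTheory Filter Topology Complex
open scoped ContDiff ENNReal

namespace Pool.Agent.P8H86.VC

open Pool.Agent.P8H31.VC

noncomputable section

/-- Cauchy-Schwarz with a kernel -/
lemma kernel_cs {κ g : ℂ → ℝ} (hκ : ContinuousOn κ (Metric.closedBall (0 : ℂ) 1))
    (hg : ContinuousOn g (Metric.closedBall (0 : ℂ) 1)) :
    (∫ c in Metric.ball (0 : ℂ) 1, κ c * g c) ^ 2 ≤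
      (∫ c in Metric.ball (0 : ℂ) 1, |κ c|) * ∫ c in Metric.ball (0 : ℂ) 1, |κ c| * g c ^ 2 := by
  have io : ∀ w : ℂ → ℝ, ContinuousOn w (Metric.closedBall (0 : ℂ) 1) →
      IntegrableOn w (Metric.ball (0 : ℂ) 1) := fun w hw =>
    (hw.integrableOn_compact (isCompact_closedBall (0 : ℂ) 1)).mono_set
      Metric.ball_subset_closedBall
  have i1 : IntegrableOn (fun c => |κ c|) (Metric.ball (0 : ℂ) 1) := io _ hκ.abs
  have i2 : IntegrableOn (fun c => |κ c| * g c ^ 2) (Metric.ball (0 : ℂ) 1) :=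
    io _ (hκ.abs.mul (hg.pow 2))
  have i3 : IntegrableOn (fun c => |κ c| * |g c|) (Metric.ball (0 : ℂ) 1) :=
    io _ (hκ.abs.mul hg.abs)
  obtain ⟨B, hB⟩ : ∃ B, B = ∫ c in Metric.ball (0 : ℂ) 1, |κ c| * |g c| := ⟨_, rfl⟩
  obtain ⟨A, hA⟩ : ∃ A, A = ∫ c in Metric.ball (0 : ℂ) 1, |κ c| := ⟨_, rfl⟩
  obtain ⟨C, hC⟩ : ∃ C, C = ∫ c in Metric.ball (0 : ℂ) 1, |κ c| * g c ^ 2 := ⟨_, rfl⟩
  have h1 : |∫ c in Metric.ball (0 : ℂ) 1, κ c * g c| ≤ B := by
    rw [hB]
    refine (abs_integral_le_integral_abs).trans (le_of_eq ?_)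
    simp only [abs_mul]
  have h2 : ∀ t : ℝ, 0 ≤ A * (t * t) + (-2 * B) * t + C := by
    intro t
    have e1 : (0 : ℝ) ≤ ∫ c in Metric.ball (0 : ℂ) 1, |κ c| * (|g c| - t) ^ 2 :=
      integral_nonneg fun c => mul_nonneg (abs_nonneg _) (sq_nonneg _)
    have e2 : ∫ c in Metric.ball (0 : ℂ) 1, |κ c| * (|g c| - t) ^ 2 =
        A * (t * t) + (-2 * B) * t + C := by
      have h3 : (fun c : ℂ => |κ c| * (|g c| - t) ^ 2) =
          fun c => (|κ c| * g c ^ 2 - (2 * t) * (|κ c| * |g c|)) + (t * t) * |κ c| := by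
        funext c
        have : |g c| ^ 2 = g c ^ 2 := sq_abs _
        linear_combination |κ c| * this
      have i4 : IntegrableOn (fun c => (2 * t) * (|κ c| * |g c|)) (Metric.ball (0 : ℂ) 1) :=
        i3.const_mul _
      have i5 : IntegrableOn (fun c => |κ c| * g c ^ 2 - (2 * t) * (|κ c| * |g c|))
        (Metric.ball (0 : ℂ) 1) := i2.sub i4
      have i6 : IntegrableOn (fun c => (t * t) * |κ c|) (Metric.ball (0 : ℂ) 1) :=
        i1.const_mul _
      rw [h3, integral_add i5 i6, integral_sub i2 i4, integral_const_mul, integral_const_mul,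
        ← hA, ← hB, ← hC]
      ring
    rw [e2] at e1
    exact e1
  have h3 := discrim_le_zero h2
  unfold discrim at h3
  have h4 : (∫ c in Metric.ball (0 : ℂ) 1, κ c * g c) ^ 2 ≤ B ^ 2 := by
    rw [← sq_abs]
    exact pow_le_pow_left₀ (abs_nonneg _) h1 2
  rw [← hA, ← hC]
  nlinarith

theorem k1 : S_K1 := by
  intro Ω φ hΩ hφ hφc hφΩ hφ0
  obtain ⟨r0, hr0, K, hK, hKΩ, hm⟩ := exists_nbh hΩ hφc hφΩ
  obtain ⟨M, hM⟩ := hφc.exists_bound_of_continuous hφ
  have hM0 : 0 ≤ M := (norm_nonneg _).trans (hM 0)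
  have hSK : tsupport φ ⊆ K := fun z hz => by
    have := hm 0 le_rfl hr0.le z hz 0 (by simp)
    simpa using this
  refine ⟨r0, M, K, hr0, hM0, hK, hKΩ, hSK, fun z hz c hc r hr hr1 => hm r hr hr1 z hz c hc,
    fun f hf κ hκ r hr hr1 => ?_⟩
  have hf2 : ContinuousOn (fun w => f w ^ 2) Ω := hf.pow 2
  have z0 : ∀ z, z ∉ tsupport φ → φ z = 0 := fun z hz => image_eq_zero_of_notMem_tsupport hz
  have iK : IntegrableOn (fun w => f w ^ 2) K := (hf2.mono hKΩ).integrableOn_compact hK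
  obtain ⟨A, hA⟩ : ∃ A, A = ∫ c in Metric.ball (0 : ℂ) 1, |κ c| := ⟨_, rfl⟩
  have hA0 : 0 ≤ A := by rw [hA]; exact integral_nonneg fun c => abs_nonneg _
  -- the bound for each translate
  have key : ∀ c ∈ Metric.ball (0 : ℂ) 1, ∫ z in tsupport φ, φ z * f (z + r * c) ^ 2 ≤
      M * ∫ z in K, f z ^ 2 := by
    intro c hc
    have e1 : ∫ z in tsupport φ, φ z * f (z + r * c) ^ 2 = ∫ z, φ z * f (z + r * c) ^ 2 :=
      setIntegral_eq_integral_of_forall_compl_eq_zero fun z hz => by rw [z0 z hz, zero_mul]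
    have e2 : ∫ z, φ z * f (z + r * c) ^ 2 = ∫ w, φ (w - r * c) * f w ^ 2 := by
      rw [← integral_add_right_eq_self (fun w => φ (w - r * c) * f w ^ 2) (r * c)]
      congr 1
      funext z
      simp only [add_sub_cancel_right]
    have e3 : ∫ w, φ (w - r * c) * f w ^ 2 = ∫ w in K, φ (w - r * c) * f w ^ 2 := by
      symm
      refine setIntegral_eq_integral_of_forall_compl_eq_zero fun w hw => ?_
      by_cases h1 : w - r * c ∈ tsupport φ
      · exact absurd (by simpa using hm r hr hr1 _ h1 c (Metric.ball_subset_closedBall hc)) hw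
      · rw [z0 _ h1, zero_mul]
    rw [e1, e2, e3, ← integral_const_mul]
    refine setIntegral_mono_on ?_ (iK.const_mul _) hK.measurableSet fun w hw => ?_
    · exact ((hφ.comp (by fun_prop)).continuousOn.mul (hf2.mono hKΩ)).integrableOn_compact hK
    · exact mul_le_mul_of_nonneg_right ((le_abs_self _).trans (hM _)) (sq_nonneg _)
  -- the product function
  have cF : ContinuousOn (fun p : ℂ × ℂ => φ p.1 * (|κ p.2| * f (p.1 + r * p.2) ^ 2))
      (tsupport φ ×ˢ Metric.closedBall (0 : ℂ) 1) := by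
    refine (hφ.comp continuous_fst).continuousOn.mul (ContinuousOn.mul ?_ ?_)
    · exact hκ.abs.comp continuousOn_snd fun p hp => hp.2
    · refine (hf2.mono hKΩ).comp (by fun_prop) fun p hp => ?_
      exact hm r hr hr1 p.1 hp.1 p.2 hp.2
  have iF : IntegrableOn (fun p : ℂ × ℂ => φ p.1 * (|κ p.2| * f (p.1 + r * p.2) ^ 2))
      (tsupport φ ×ˢ Metric.ball (0 : ℂ) 1) (volume.prod volume) := by
    have h1 : IntegrableOn (fun p : ℂ × ℂ => φ p.1 * (|κ p.2| * f (p.1 + r * p.2) ^ 2))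
      (tsupport φ ×ˢ Metric.closedBall (0 : ℂ) 1) (volume.prod volume) :=
      cF.integrableOn_compact (hφc.isCompact.prod (isCompact_closedBall (0 : ℂ) 1))
    exact h1.mono_set (Set.prod_mono subset_rfl Metric.ball_subset_closedBall)
  have iF' : Integrable (Function.uncurry fun z c : ℂ => φ z * (|κ c| * f (z + r * c) ^ 2))
      ((volume.restrict (tsupport φ)).prod (volume.restrict (Metric.ball (0 : ℂ) 1))) := by
    rw [Measure.prod_restrict]
    exact iF
  have i1 : IntegrableOn (fun z => ∫ c in Metric.ball (0 : ℂ) 1,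
      φ z * (|κ c| * f (z + r * c) ^ 2)) (tsupport φ) := iF'.integral_prod_left
  have i2 : IntegrableOn (fun c => ∫ z in tsupport φ,
      φ z * (|κ c| * f (z + r * c) ^ 2)) (Metric.ball (0 : ℂ) 1) := iF'.integral_prod_right
  have s1 : ∫ z, φ z * (∫ c in Metric.ball (0 : ℂ) 1, κ c * f (z + r * c)) ^ 2 =
      ∫ z in tsupport φ, φ z * (∫ c in Metric.ball (0 : ℂ) 1, κ c * f (z + r * c)) ^ 2 := by
    symm
    refine setIntegral_eq_integral_of_forall_compl_eq_zero fun w hw => ?_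
    rw [z0 _ hw, zero_mul]
  have s2 : ∫ z in tsupport φ, φ z * (∫ c in Metric.ball (0 : ℂ) 1, κ c * f (z + r * c)) ^ 2 ≤
      ∫ z in tsupport φ, A * ∫ c in Metric.ball (0 : ℂ) 1,
        φ z * (|κ c| * f (z + r * c) ^ 2) := by
    refine integral_mono_of_nonneg (ae_of_all _ fun z => mul_nonneg (hφ0 z) (sq_nonneg _))
      (i1.const_mul _) ?_
    filter_upwards [ae_restrict_mem (isClosed_tsupport φ).measurableSet] with z hz
    have cg : ContinuousOn (fun c : ℂ => f (z + r * c)) (Metric.closedBall (0 : ℂ) 1) :=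
      (hf.mono hKΩ).comp (by fun_prop) fun c hc => hm r hr hr1 z hz c hc
    have h1 := mul_le_mul_of_nonneg_left (kernel_cs hκ cg) (hφ0 z)
    rw [integral_const_mul]
    rw [← hA] at h1
    refine h1.trans (le_of_eq ?_)
    ring
  have s3 : ∫ z in tsupport φ, A * ∫ c in Metric.ball (0 : ℂ) 1,
      φ z * (|κ c| * f (z + r * c) ^ 2) = A * ∫ c in Metric.ball (0 : ℂ) 1, ∫ z in tsupport φ,
        φ z * (|κ c| * f (z + r * c) ^ 2) := by
    rw [integral_const_mul, integral_integral_swap iF']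
  have s4 : ∫ c in Metric.ball (0 : ℂ) 1, ∫ z in tsupport φ,
      φ z * (|κ c| * f (z + r * c) ^ 2) ≤
      ∫ c in Metric.ball (0 : ℂ) 1, |κ c| * (M * ∫ z in K, f z ^ 2) := by
    refine setIntegral_mono_on i2 ?_ measurableSet_ball fun c hc => ?_
    · exact ((hκ.abs.integrableOn_compact (isCompact_closedBall (0 : ℂ) 1)).mono_set
        Metric.ball_subset_closedBall).mul_const _
    · have e1 : ∫ z in tsupport φ, φ z * (|κ c| * f (z + r * c) ^ 2) =
          |κ c| * ∫ z in tsupport φ, φ z * f (z + r * c) ^ 2 := by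
        rw [← integral_const_mul]
        congr 1
        funext z
        ring
      rw [e1]
      exact mul_le_mul_of_nonneg_left (key c hc) (abs_nonneg _)
  rw [integral_mul_const, ← hA] at s4
  rw [s1, ← hA]
  refine s2.trans ?_
  rw [s3]
  refine (mul_le_mul_of_nonneg_left s4 hA0).trans (le_of_eq ?_)
  ring

end

end Pool.Agent.P8H86.VC
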