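import Pool.Agent.P8H31.VC.Stm2
import Pool.Agent.P8H86.VC.Mc

/-!
Project VC (helper31), packages K4 and K5, by helper86.
-/

set_option autoImplicit false
open MeasureTheory Filter Topology Complex
open scoped ContDiff ENNReal

namespace Pool.Agent.P8H86.VC

open Pool.Agent.P8H31.VC

noncomputable section

lemma ball_one : ∫ _c in Metric.ball (0 : ℂ) 1, (1 : ℝ) = Real.pi := by
  rw [setIntegral_const, smul_eq_mul, mul_one, Measure.real, Complex.volume_ball]
  simp

lemma ball_int (t : ℝ) : IntegrableOn (fun _ : ℂ => t) (Metric.ball (0 : ℂ) 1) :=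
  (continuousOn_const.integrableOn_compact (isCompact_closedBall (0 : ℂ) 1)).mono_set
    Metric.ball_subset_closedBall

lemma ball_const (t : ℝ) : ∫ _c in Metric.ball (0 : ℂ) 1, t = Real.pi * t := by
  have h1 : ∫ _c in Metric.ball (0 : ℂ) 1, t = ∫ _c in Metric.ball (0 : ℂ) 1, t * (1 : ℝ) := by
    simp only [mul_one]
  rw [h1, integral_const_mul, ball_one, mul_comm]

/-- Cauchy-Schwarz for the mean -/
lemma mean_sq {g : ℂ → ℝ} {z : ℂ} {r : ℝ}
    (hg : ContinuousOn (fun c : ℂ => g (z + r * c)) (Metric.closedBall (0 : ℂ) 1)) :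
    mean r g z ^ 2 ≤ mean r (fun w => g w ^ 2) z := by
  have hpi := Real.pi_pos
  have i1 : IntegrableOn (fun c : ℂ => g (z + r * c)) (Metric.ball (0 : ℂ) 1) :=
    (hg.integrableOn_compact (isCompact_closedBall (0 : ℂ) 1)).mono_set
      Metric.ball_subset_closedBall
  have i2 : IntegrableOn (fun c : ℂ => g (z + r * c) ^ 2) (Metric.ball (0 : ℂ) 1) :=
    ((hg.pow 2).integrableOn_compact (isCompact_closedBall (0 : ℂ) 1)).mono_set
      Metric.ball_subset_closedBall
  obtain ⟨t, ht⟩ : ∃ t : ℝ, t = mean r g z := ⟨_, rfl⟩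
  have e0 : ∫ c in Metric.ball (0 : ℂ) 1, g (z + r * c) = Real.pi * t := by
    rw [ht]; unfold mean; field_simp
  have e1 : (0 : ℝ) ≤ ∫ c in Metric.ball (0 : ℂ) 1, (g (z + r * c) - t) ^ 2 :=
    integral_nonneg fun c => sq_nonneg _
  have e2 : ∫ c in Metric.ball (0 : ℂ) 1, (g (z + r * c) - t) ^ 2 =
      (∫ c in Metric.ball (0 : ℂ) 1, g (z + r * c) ^ 2) - Real.pi * t ^ 2 := by
    have h1 : (fun c : ℂ => (g (z + r * c) - t) ^ 2) =
        fun c => g (z + r * c) ^ 2 - (2 * t) * g (z + r * c) + t ^ 2 := by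
      funext c; ring
    have i4 : IntegrableOn (fun c : ℂ => (2 * t) * g (z + r * c)) (Metric.ball (0 : ℂ) 1) :=
      i1.const_mul _
    have i3 : IntegrableOn (fun c : ℂ => g (z + r * c) ^ 2 - (2 * t) * g (z + r * c))
      (Metric.ball (0 : ℂ) 1) := i2.sub i4
    rw [h1, integral_add i3 (ball_int _), integral_sub i2 i4,
      integral_const_mul, e0, ball_const]
    ring
  rw [e2] at e1
  rw [← ht]
  unfold mean
  rw [one_div, ← div_eq_inv_mul, le_div_iff₀ hpi]
  linarith

theorem k4 : S_K4 := by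
  intro Ω φ hΩ hφ hφc hφΩ hφ0
  obtain ⟨r1, hr1, K, hK, hKΩ, hm⟩ := exists_nbh hΩ hφc hφΩ
  obtain ⟨r2, hr2, hfu⟩ := fu hΩ hφ hφc hφΩ hφ0
  obtain ⟨r3, hr3, hmc⟩ := mc hΩ hφc hφΩ
  have hSK : tsupport φ ⊆ K := fun z hz => by
    have := hm 0 le_rfl hr1.le z hz 0 (by simp)
    simpa using this
  refine ⟨K, hK, hKΩ, fun ε hε => ?_⟩
  have huc : UniformContinuous φ := hφc.uniformContinuous_of_continuous hφ
  obtain ⟨δ, hδ, hδ'⟩ := Metric.uniformContinuous_iff.1 huc ε hε
  refine ⟨min (min r1 r2) (min r3 (δ / 2)), by positivity, fun f hf r hr hrr => ?_⟩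
  have q1 : r ≤ r1 := hrr.trans ((min_le_left _ _).trans (min_le_left _ _))
  have q2 : r ≤ r2 := hrr.trans ((min_le_left _ _).trans (min_le_right _ _))
  have q3 : r ≤ r3 := hrr.trans ((min_le_right _ _).trans (min_le_left _ _))
  have q4 : r ≤ δ / 2 := hrr.trans ((min_le_right _ _).trans (min_le_right _ _))
  have hf2 : ContinuousOn (fun w => f w ^ 2) Ω := hf.pow 2
  have z0 : ∀ z, z ∉ tsupport φ → φ z = 0 := fun z hz => image_eq_zero_of_notMem_tsupport hz
  have iK : IntegrableOn (fun w => f w ^ 2) K := (hf2.mono hKΩ).integrableOn_compact hK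
  have iφK : IntegrableOn (fun w => φ w * f w ^ 2) K :=
    (hφ.continuousOn.mul (hf2.mono hKΩ)).integrableOn_compact hK
  -- the bound for each translate
  have key : ∀ c ∈ Metric.ball (0 : ℂ) 1, ∫ z in tsupport φ, φ z * f (z + r * c) ^ 2 ≤
      (∫ z, φ z * f z ^ 2) + ε * ∫ z in K, f z ^ 2 := by
    intro c hc
    have hc1 : ‖c‖ < 1 := by simpa using hc
    have e1 : ∫ z in tsupport φ, φ z * f (z + r * c) ^ 2 = ∫ z, φ z * f (z + r * c) ^ 2 :=
      setIntegral_eq_integral_of_forall_compl_eq_zero fun z hz => by rw [z0 z hz, zero_mul]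
    have e2 : ∫ z, φ z * f (z + r * c) ^ 2 = ∫ w, φ (w - r * c) * f w ^ 2 := by
      rw [← integral_add_right_eq_self (fun w => φ (w - r * c) * f w ^ 2) (r * c)]
      congr 1
      funext z
      simp only [add_sub_cancel_right]
    have e3 : ∫ w, φ (w - r * c) * f w ^ 2 = ∫ w in K, φ (w - r * c) * f w ^ 2 := by
      symm
      refine setIntegral_eq_integral_of_forall_compl_eq_zero fun w hw => ?_
      by_cases h1 : w - r * c ∈ tsupport φ
      · exact absurd (by simpa using hm r hr q1 _ h1 c (Metric.ball_subset_closedBall hc)) hw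
      · rw [z0 _ h1, zero_mul]
    have e4 : ∫ z, φ z * f z ^ 2 = ∫ z in K, φ z * f z ^ 2 := by
      symm
      refine setIntegral_eq_integral_of_forall_compl_eq_zero fun w hw => ?_
      rw [z0 _ (fun h => hw (hSK h)), zero_mul]
    rw [e1, e2, e3, e4, ← integral_const_mul, ← integral_add iφK (iK.const_mul _)]
    refine setIntegral_mono_on ?_ (iφK.add (iK.const_mul _)) hK.measurableSet fun w hw => ?_
    · exact ((hφ.comp (by fun_prop)).continuousOn.mul (hf2.mono hKΩ)).integrableOn_compact hK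
    · have h1 : dist (w - r * c) w < δ := by
        rw [dist_eq_norm, sub_sub_cancel_left, norm_neg, norm_mul, norm_real, Real.norm_eq_abs,
          abs_of_nonneg hr]
        nlinarith [norm_nonneg c]
      have h2 := hδ' h1
      rw [Real.dist_eq] at h2
      have h3 := (abs_lt.1 h2).2
      have h4 : φ (w - r * c) * f w ^ 2 ≤ (φ w + ε) * f w ^ 2 :=
        mul_le_mul_of_nonneg_right (by linarith) (sq_nonneg _)
      calc φ (w - r * c) * f w ^ 2 ≤ (φ w + ε) * f w ^ 2 := h4
        _ = φ w * f w ^ 2 + ε * f w ^ 2 := by ring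
  have h1 := hfu (fun w => f w ^ 2) hf2 r hr q2 (tsupport φ) (isClosed_tsupport φ).measurableSet
    subset_rfl _ key
  refine le_trans ?_ h1
  have e5 : ∫ z, φ z * mean r f z ^ 2 = ∫ z in tsupport φ, φ z * mean r f z ^ 2 := by
    symm
    refine setIntegral_eq_integral_of_forall_compl_eq_zero fun w hw => ?_
    rw [z0 _ hw, zero_mul]
  rw [e5]
  refine setIntegral_mono_on ?_ ?_ (isClosed_tsupport φ).measurableSet fun z hz => ?_
  · exact (hφ.continuousOn.mul ((hmc f hf r hr q3).pow 2)).integrableOn_compact hφc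
  · exact (hφ.continuousOn.mul (hmc _ hf2 r hr q3)).integrableOn_compact hφc
  · refine mul_le_mul_of_nonneg_left (mean_sq ?_) (hφ0 z)
    exact (hf.mono hKΩ).comp (by fun_prop) fun c hc => hm r hr q1 z hz c hc

theorem k5 : S_K5 := by
  intro Ω S m hΩ hS hSΩ hmc ε hε
  obtain ⟨r1, hr1, K, hK, hKΩ, hm⟩ := exists_nbh hΩ hS hSΩ
  have huc : UniformContinuousOn m K := hK.uniformContinuousOn_of_continuous (hmc.mono hKΩ)
  obtain ⟨δ, hδ, hδ'⟩ := Metric.uniformContinuousOn_iff.1 huc ε hε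
  refine ⟨min r1 (δ / 2), by positivity, fun r hr hrr z hz => ?_⟩
  have q1 : r ≤ r1 := hrr.trans (min_le_left _ _)
  have q2 : r ≤ δ / 2 := hrr.trans (min_le_right _ _)
  have hpi := Real.pi_pos
  have cg : ContinuousOn (fun c : ℂ => m (z + r * c)) (Metric.closedBall (0 : ℂ) 1) :=
    (hmc.mono hKΩ).comp (by fun_prop) fun c hc => hm r hr q1 z hz c hc
  have i1 : IntegrableOn (fun c : ℂ => m (z + r * c)) (Metric.ball (0 : ℂ) 1) :=
    (cg.integrableOn_compact (isCompact_closedBall (0 : ℂ) 1)).mono_set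
      Metric.ball_subset_closedBall
  have hzK : z ∈ K := by
    have := hm 0 le_rfl hr1.le z hz 0 (by simp)
    simpa using this
  have bd : ∀ c ∈ Metric.ball (0 : ℂ) 1, |m (z + r * c) - m z| ≤ ε := by
    intro c hc
    have hc1 : ‖c‖ < 1 := by simpa using hc
    have h1 : dist (z + r * c) z < δ := by
      rw [dist_eq_norm, add_sub_cancel_left, norm_mul, norm_real, Real.norm_eq_abs,
        abs_of_nonneg hr]
      nlinarith [norm_nonneg c]
    have h2 := hδ' _ (hm r hr q1 z hz c (Metric.ball_subset_closedBall hc)) _ hzK h1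
    rw [Real.dist_eq] at h2
    exact h2.le
  have u1 : ∫ c in Metric.ball (0 : ℂ) 1, m (z + r * c) ≤
      ∫ _c in Metric.ball (0 : ℂ) 1, (m z + ε) :=
    setIntegral_mono_on i1 (ball_int _) measurableSet_ball fun c hc => by
      have := (abs_le.1 (bd c hc)).2
      linarith
  have u2 : ∫ _c in Metric.ball (0 : ℂ) 1, (m z - ε) ≤
      ∫ c in Metric.ball (0 : ℂ) 1, m (z + r * c) :=
    setIntegral_mono_on (ball_int _) i1 measurableSet_ball fun c hc => by
      have := (abs_le.1 (bd c hc)).1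
      linarith
  rw [ball_const] at u1 u2
  unfold mean
  rw [one_div, ← div_eq_inv_mul, abs_le]
  constructor
  · rw [le_sub_iff_add_le, le_div_iff₀ hpi]
    linarith
  · rw [sub_le_iff_le_add, div_le_iff₀ hpi]
    linarith

end

end Pool.Agent.P8H86.VC
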