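import Pool.Agent.P8H31.VC.Stm5
import Pool.Agent.P8H86.VC.P1

/-!
Project VC (helper31), package AGZ, by helper86: the ladder of the scaled sequence.
-/

set_option autoImplicit false
open MeasureTheory Filter Topology Complex ProbabilityTheory
open scoped ContDiff ENNReal

namespace Pool.Agent.P8H86.VC

open Pool.Agent.W745.RW Pool.Agent.TH294.RS Pool.Agent.TH294.RG Pool.Agent.P8H31.VC

noncomputable section

variable {B : Set ℂ} {a : ℂ → ℝ} {h : ℕ → ℝ}

/-- copy of `Pool.Agent.TH294.RG.mkAG`, without limits -/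
theorem mkAG0 (hB : IsOpen B) (hp : ∀ n, 0 < h n) (hh : Tendsto h atTop (𝓝 0))
    (ha : ContDiffOn ℝ ∞ a B) (hpa : ∀ z ∈ B, 0 < a z)
    {u : ℕ → ℂ → ℂ} (hu : ∀ n z, (starRingEnd ℂ) (u n z) = u n z) (hb : LB B 4 u)
    (he : ∀ n, ∀ z ∈ B, (h n : ℂ) ^ 2 * ((a z : ℂ) ^ 2 * lap (u n) z) = - u n z) :
    AG0 B a h (ww a h u) := by
  have ha2 : ContDiffOn ℝ ∞ (fun z => ((a z : ℂ) ^ 2)⁻¹) B := by
    refine ContDiffOn.inv ((cxa ha).pow 2) fun z hz => ?_
    have := (hpa z hz).ne'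
    exact pow_ne_zero 2 (by exact_mod_cast this)
  have H : MC B h u := fun k => MK.sol hB hp hh hb ha2 (fun n z hz => by
    have h1 := he n z hz
    have h2 : (a z : ℂ) ^ 2 ≠ 0 := pow_ne_zero 2 (by exact_mod_cast (hpa z hz).ne')
    have h3 : hL h u n z = ((a z : ℂ) ^ 2)⁻¹ * ((h n : ℂ) ^ 2 * ((a z : ℂ) ^ 2 * lap (u n) z)) := by
      have h4 : ((a z : ℂ) ^ 2)⁻¹ * (a z : ℂ) ^ 2 = 1 := inv_mul_cancel₀ h2
      simp only [hL]
      linear_combination (-((h n : ℂ) ^ 2 * lap (u n) z)) * h4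
    rw [h3, h1]; ring) k
  have hzero : LB B 4 (fun (_ : ℕ) (_ : ℂ) => (0 : ℂ)) :=
    LB.const B 4 (c := fun _ => 0) contDiffOn_const
  have cjw : ∀ (k : ℕ) (c : ℂ), MC B h (fun n z => c * (starRingEnd ℂ) (Pool.Agent.TH294.RS.wn a h u k n z)) :=
    fun k c => ((H.wn hB hh ha k).conj hB).cmul hB hh c
  have bd : ∀ k : ℤ, LB B 4 (ww a h u k) := by
    intro k
    rcases Int.eq_nat_or_neg k with ⟨m, rfl | rfl⟩
    · exact (H.wn hB hh ha m) 0
    · refine LB.congr ((cjw m ((-1) ^ m)) 0) fun n z _ => ww_neg hu m n z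
  refine ⟨hp, hh, ha, hpa, bd, ?_, ?_, ?_⟩
  · -- raising
    intro k
    rcases Int.eq_nat_or_neg k with ⟨m, rfl | rfl⟩
    · refine ⟨_, hzero, fun n z hz => ?_⟩
      have e1 : ((m : ℤ) + 1) = ((m + 1 : ℕ) : ℤ) := by push_cast; rfl
      rw [e1, ww_nat, ww_nat, wn_succ]
      simp
    · cases m with
      | zero =>
        refine ⟨_, hzero, fun n z hz => ?_⟩
        have e1 : (-((0 : ℕ) : ℤ) + 1) = ((1 : ℕ) : ℤ) := by simp
        have e2 : (-((0 : ℕ) : ℤ)) = ((0 : ℕ) : ℤ) := by simp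
        rw [e1, e2, ww_nat, ww_nat, wn_succ]
        simp
      | succ m =>
        obtain ⟨E, hE, hE'⟩ := errs hB hh ha H he m
        refine ⟨fun n z => (-1) ^ (m + 1) * (starRingEnd ℂ) (E n z),
          ((hE.conj hB).cmul hB hh _) 0, fun n z hz => ?_⟩
        have e1 : (-((m + 1 : ℕ) : ℤ) + 1) = -(m : ℤ) := by push_cast; ring
        rw [e1, ww_neg hu]
        have e2 : ww a h u (-((m + 1 : ℕ) : ℤ)) n =
            fun z => (-1) ^ (m + 1) * (starRingEnd ℂ) (Pool.Agent.TH294.RS.wn a h u (m + 1) n z) := by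
          funext z; exact ww_neg hu (m + 1) n z
        have d := fda hB ((H.wn hB hh ha (m + 1)).sm n) hz
        rw [e2, DP_cm (h n) (conj_da d), DP_conj (h n) d, hE' n z hz, map_add, map_neg, map_mul,
          conj_ofReal]
        ring
  · -- lowering
    intro k
    rcases Int.eq_nat_or_neg k with ⟨m, rfl | rfl⟩
    · cases m with
      | zero =>
        refine ⟨_, hzero, fun n z hz => ?_⟩
        have e1 : (((0 : ℕ) : ℤ) - 1) = -((1 : ℕ) : ℤ) := by simp
        rw [e1, ww_neg hu, ww_nat, wn_succ]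
        have e2 : Pool.Agent.TH294.RS.wn a h u 0 n = u n := rfl
        have d := fda hB (H.sm n) hz
        have e3 : u n = fun w => (starRingEnd ℂ) (u n w) := by
          funext w; exact (hu n w).symm
        have e4 : DM a (h n) (u n) z = (starRingEnd ℂ) (DP a (h n) (u n) z) := by
          conv_lhs => rw [e3]
          exact DM_conj (h n) d
        rw [e2, e4]
        ring
      | succ m =>
        obtain ⟨E, hE, hE'⟩ := errs hB hh ha H he m
        refine ⟨E, hE 0, fun n z hz => ?_⟩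
        have e1 : (((m + 1 : ℕ) : ℤ) - 1) = ((m : ℕ) : ℤ) := by push_cast; ring
        rw [e1, ww_nat, ww_nat]
        exact hE' n z hz
    · refine ⟨_, hzero, fun n z hz => ?_⟩
      have e1 : (-(m : ℤ) - 1) = -((m + 1 : ℕ) : ℤ) := by push_cast; ring
      rw [e1, ww_neg hu, wn_succ]
      have e2 : ww a h u (-(m : ℤ)) n =
          fun z => (-1) ^ m * (starRingEnd ℂ) (Pool.Agent.TH294.RS.wn a h u m n z) := by
        funext z; exact ww_neg hu m n z
      have d := fda hB ((H.wn hB hh ha m).sm n) hz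
      rw [e2, DM_cm (h n) (conj_da d), DM_conj (h n) d, pow_succ]
      ring
  · -- conjugation
    intro k n z hz
    have hs : ∀ m : ℕ, ((-1 : ℂ) ^ m) * (-1) ^ m = 1 := by
      intro m; rw [← mul_pow]; simp
    rcases Int.eq_nat_or_neg k with ⟨m, rfl | rfl⟩
    · rw [ww_neg hu, ww_nat, Int.natAbs_natCast, ← mul_assoc, hs, one_mul]
    · rw [neg_neg, ww_nat, Int.natAbs_neg, Int.natAbs_natCast, ww_neg hu, map_mul,
        conj_conj, map_pow, map_neg, map_one]

theorem agz : S_AGZ := by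
  intro m ν Ω a h u K Hy
  have hB : IsOpen (interior K) := isOpen_interior
  have hBΩ : interior K ⊆ Ω := interior_subset.trans Hy.hKΩ
  have H := Hy.H
  have smR : ∀ n, ContDiffOn ℝ ∞ (u n) (interior K) := fun n => (H.sm n).mono hBΩ
  have smS : ∀ n, ContDiffOn ℝ ∞ (sc K u n) (interior K) := fun n =>
    contDiffOn_const.mul (smR n)
  have sm : ∀ n, ContDiffOn ℝ ∞ (fun z => (sc K u n z : ℂ)) (interior K) := fun n => cxa (smS n)
  have HB : RawG (interior K) a h u (MM m ea ν) :=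
    ⟨H.hpos, H.hlim, H.sa.mono hBΩ, fun z hz => H.pa z (hBΩ hz), smR,
      fun n z hz => H.eq n z (hBΩ hz), fun φ hφ k => H.qe φ ⟨hφ.1, hφ.2.1, hφ.2.2.trans hBΩ⟩ k⟩
  refine mkAG0 hB H.hpos H.hlim (H.sa.mono hBΩ) (fun z hz => H.pa z (hBΩ hz))
    (fun n z => conj_ofReal _) ⟨sm, fun K' hK' hKB => ?_⟩ (fun n z hz => ?_)
  · refine ⟨1, Eventually.of_forall fun n => ?_⟩
    have cu : ContinuousOn (fun z => u n z ^ 4) K :=
      ((H.sm n).continuousOn.mono Hy.hKΩ).pow 4
    have h1 : ∫ z in K', ‖(sc K u n z : ℂ)‖ ^ 4 = fc K u n ^ 4 * ∫ z in K', u n z ^ 4 := by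
      rw [← integral_const_mul]
      refine setIntegral_congr_fun hK'.measurableSet fun z _ => ?_
      simp only [Complex.norm_real, Real.norm_eq_abs]
      rw [Even.pow_abs (by decide)]
      unfold sc
      ring
    have h2 : ∫ z in K', u n z ^ 4 ≤ ∫ z in K, u n z ^ 4 := by
      refine setIntegral_mono_set (cu.integrableOn_compact Hy.hK) ?_ ?_
      · exact ae_of_all _ fun z => by positivity
      · exact Filter.Eventually.of_forall fun z hz => interior_subset (hKB hz)
    have h3 : 0 ≤ fc K u n ^ 4 := pow_nonneg (fc_pos K u n).le 4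
    have h4 := fc_mul K u n
    rw [h1]
    have h5 : fc K u n ^ 4 * ∫ z in K', u n z ^ 4 ≤ fc K u n ^ 4 * (1 + ∫ z in K, u n z ^ 4) :=
      mul_le_mul_of_nonneg_left (by linarith) h3
    linarith
  · rw [lap_re hB (smS n) hz]
    have H0 := HB.scale hB (c := fun k => if k = n then fc K u n else 0)
      (tendsto_const_nhds.congr' (by
        filter_upwards [eventually_gt_atTop n] with k hk
        rw [if_neg (by omega)]))
    have h1 := H0.eq n z hz
    simp only [if_true] at h1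
    have h2 : ((h n ^ 2 * (a z ^ 2 * lap (sc K u n) z) + sc K u n z : ℝ) : ℂ) = 0 := by
      have h3 : h n ^ 2 * (a z ^ 2 * lap (sc K u n) z) + sc K u n z = 0 := h1
      rw [h3]; simp
    push_cast at h2
    linear_combination h2

end

end Pool.Agent.P8H86.VC
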