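import Pool.Agent.P8H31.VC.Stm3

/-!
Project VC (helper31), package E1, by helper86: exact second moments of the combinations of products.
-/

set_option autoImplicit false
open MeasureTheory Filter Topology Complex ProbabilityTheory
open scoped ContDiff ENNReal

namespace Pool.Agent.P8H86.VC

open Pool.Agent.W745.RW Pool.Agent.TH294.RS Pool.Agent.TH294.RG Pool.Agent.P8H31.VC

noncomputable section

section gauss

variable {M : ℕ → ℂ → ℂ}

/-- the Gaussian part, exact main term -/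
theorem gauss_eq {B : Set ℂ} (hml : ∀ k, ML B (M k)) {φ : ℂ → ℝ} (hφ : TF B φ)
    (hφ0 : ∀ z, 0 ≤ φ z) (i j : ℤ) (s : Finset ℤ) (α : ℤ → ℂ) :
    ‖(∑ k ∈ s, ∑ l ∈ s, (sg (i + j) * (α k * (starRingEnd ℂ) (α l))) *
      ∫ z, (φ z : ℂ) * GG' M (i + k) (j - k) (-i - l) (-j + l) z) -
      (sg (i + j) * (∫ z, (φ z : ℂ) * (cc M i j z * cc M (-i) (-j) z))) *
        ((‖∑ k ∈ s, sg k * α k‖ ^ 2 : ℝ) : ℂ)‖ ≤
      ∑ k ∈ s, ∑ l ∈ s, ‖α k‖ * ‖α l‖ *
        (fK M φ (k - l) + fK M φ (i - j + k + l)) := by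
  have mm := fun (a b c d : ℤ) => TF.intK hφ
    ((ML.cc hml a b).mulint (ML.cc hml c d) hφ.2.1 hφ.2.2)
  have split : ∀ k l : ℤ, ∫ z, (φ z : ℂ) * GG' M (i + k) (j - k) (-i - l) (-j + l) z
      = sg k * sg l * (∫ z, (φ z : ℂ) * (cc M i j z * cc M (-i) (-j) z)) +
      ((∫ z, (φ z : ℂ) * (cc M (i + k) (-i - l) z * cc M (j - k) (-j + l) z)) +
      ∫ z, (φ z : ℂ) * (cc M (i + k) (-j + l) z * cc M (j - k) (-i - l) z)) := by
    intro k l
    have i23 : Integrable (fun z => (φ z : ℂ) * (cc M (i + k) (-i - l) z *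
        cc M (j - k) (-j + l) z) + (φ z : ℂ) * (cc M (i + k) (-j + l) z *
        cc M (j - k) (-i - l) z)) := (mm _ _ _ _).add (mm _ _ _ _)
    rw [← integral_const_mul, ← integral_add (mm _ _ _ _) (mm _ _ _ _),
      ← integral_add ((mm _ _ _ _).const_mul _) i23]
    congr 1; funext z
    have e1 := cc_sk (M := M) i j k z
    have e2 := cc_sk (M := M) (-i) (-j) (-l) z
    rw [show -i + -l = -i - l by ring, show -j - -l = -j + l by ring, sg_neg] at e2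
    simp only [GG']
    rw [e1, e2]; ring
  simp only [split, mul_add, Finset.sum_add_distrib]
  have e : ∑ k ∈ s, ∑ l ∈ s, sg (i + j) * (α k * (starRingEnd ℂ) (α l)) *
      (sg k * sg l * ∫ z, (φ z : ℂ) * (cc M i j z * cc M (-i) (-j) z)) =
      (sg (i + j) * (∫ z, (φ z : ℂ) * (cc M i j z * cc M (-i) (-j) z))) *
        ((‖∑ k ∈ s, sg k * α k‖ ^ 2 : ℝ) : ℂ) := by
    rw [← conj_sum_mul, Finset.sum_mul_sum, Finset.mul_sum]
    refine Finset.sum_congr rfl fun k _ => ?_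
    rw [Finset.mul_sum]
    refine Finset.sum_congr rfl fun l _ => ?_
    rw [map_mul, sg_conj]; ring
  rw [e, add_sub_cancel_left]
  simp only [← Finset.sum_add_distrib]
  refine (norm_sum_le _ _).trans (Finset.sum_le_sum fun k _ => (norm_sum_le _ _).trans
    (Finset.sum_le_sum fun l _ => ?_))
  rw [← mul_add, ← mul_add, norm_mul, norm_mul, norm_mul, sg_norm, one_mul, RCLike.norm_conj]
  refine mul_le_mul_of_nonneg_left ?_ (by positivity)
  refine (norm_add_le _ _).trans (add_le_add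
    ((cross_bd hml hφ hφ0 _ _ _ _).trans (le_of_eq ?_))
    ((cross_bd hml hφ hφ0 _ _ _ _).trans (le_of_eq ?_)))
  · rw [show i + k + (-i - l) = k - l by ring, show j - k + (-j + l) = -(k - l) by ring, fK_neg]
    ring
  · rw [show i + k + (-j + l) = i - j + k + l by ring,
      show j - k + (-i - l) = -(i - j + k + l) by ring, fK_neg]
    ring

end gauss

variable {m : ℂ → ℝ} {ν : Kernel ℂ ℝ}

/-- the second moment as a combination of fourth order moments -/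
theorem FA_sq {Ω : Set ℂ} {a : ℂ → ℝ} {h : ℕ → ℝ} {u : ℕ → ℂ → ℝ} {M : ℕ → ℂ → ℂ}
    (H : RawG Ω a h u M) {K : Set ℂ} (hKΩ : K ⊆ Ω)
    {φ : ℂ → ℝ} (hφ : TF (interior K) φ) (i j : ℤ) (s : Finset ℤ) (α : ℤ → ℂ) (n : ℕ) :
    ∑ k ∈ s, ∑ l ∈ s, (sg (i + j) * (α k * (starRingEnd ℂ) (α l))) * (∫ z, (φ z : ℂ) *
      (W1 a (h n) (u n) (i + k) z * W1 a (h n) (u n) (j - k) z *
      W1 a (h n) (u n) (-i - l) z * W1 a (h n) (u n) (-j + l) z)) =
      ((∫ z, φ z * ‖FA (ww a h (fun n z => (u n z : ℂ))) i j s α n z‖ ^ 2 : ℝ) : ℂ) := by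
  have hB : IsOpen (interior K) := isOpen_interior
  have hBΩ : interior K ⊆ Ω := interior_subset.trans hKΩ
  have hu : ∀ n z, (starRingEnd ℂ) ((u n z : ℂ)) = (u n z : ℂ) := fun n z => conj_ofReal _
  have wc : ∀ k, ContinuousOn (ww a h (fun n z => (u n z : ℂ)) k n) (interior K) := fun k =>
    ((H.cmp hBΩ (σ := id) tendsto_id).lb2 hB k).co n
  simp only [W1_eq]
  have ii : ∀ k l : ℤ, Integrable (fun z => (sg (i + j) * (α k * (starRingEnd ℂ) (α l))) *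
      ((φ z : ℂ) * (ww a h (fun n z => (u n z : ℂ)) (i + k) n z *
      ww a h (fun n z => (u n z : ℂ)) (j - k) n z *
      ww a h (fun n z => (u n z : ℂ)) (-i - l) n z *
      ww a h (fun n z => (u n z : ℂ)) (-j + l) n z))) := fun k l =>
    (TF.cint hφ ((((wc _).mul (wc _)).mul (wc _)).mul (wc _))).const_mul _
  simp only [← integral_const_mul]
  have e0 : ∀ k ∈ s, ∑ l ∈ s, ∫ z, (sg (i + j) * (α k * (starRingEnd ℂ) (α l))) *
      ((φ z : ℂ) * (ww a h (fun n z => (u n z : ℂ)) (i + k) n z *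
      ww a h (fun n z => (u n z : ℂ)) (j - k) n z *
      ww a h (fun n z => (u n z : ℂ)) (-i - l) n z *
      ww a h (fun n z => (u n z : ℂ)) (-j + l) n z)) =
      ∫ z, ∑ l ∈ s, (sg (i + j) * (α k * (starRingEnd ℂ) (α l))) *
      ((φ z : ℂ) * (ww a h (fun n z => (u n z : ℂ)) (i + k) n z *
      ww a h (fun n z => (u n z : ℂ)) (j - k) n z *
      ww a h (fun n z => (u n z : ℂ)) (-i - l) n z *
      ww a h (fun n z => (u n z : ℂ)) (-j + l) n z)) := fun k _ =>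
    (integral_finsetSum _ fun l _ => ii k l).symm
  rw [Finset.sum_congr rfl e0, ← integral_finsetSum _ fun k _ => integrable_finsetSum _
    fun l _ => ii k l, ← integral_complex_ofReal]
  congr 1; funext z
  rw [show ((φ z * ‖FA (ww a h (fun n z => (u n z : ℂ))) i j s α n z‖ ^ 2 : ℝ) : ℂ) =
    (φ z : ℂ) * (FA (ww a h (fun n z => (u n z : ℂ))) i j s α n z *
      (starRingEnd ℂ) (FA (ww a h (fun n z => (u n z : ℂ))) i j s α n z)) by
      rw [Complex.mul_conj, Complex.normSq_eq_norm_sq]; push_cast; ring]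
  have f2 : (starRingEnd ℂ) (FA (ww a h (fun n z => (u n z : ℂ))) i j s α n z) =
      ∑ l ∈ s, sg (i + j) * ((starRingEnd ℂ) (α l) *
        (ww a h (fun n z => (u n z : ℂ)) (-i - l) n z *
        ww a h (fun n z => (u n z : ℂ)) (-j + l) n z)) := by
    unfold FA
    rw [map_sum]
    refine Finset.sum_congr rfl fun l _ => ?_
    rw [map_mul, map_mul, ww_cj a h hu, ww_cj a h hu]
    have s1 : sg (i + l) * sg (j - l) = sg (i + j) := by
      rw [← sg_add]; congr 1; ring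
    rw [show -(i + l) = -i - l by ring, show -(j - l) = -j + l by ring, ← s1]
    ring
  rw [f2]
  unfold FA
  rw [Finset.sum_mul, Finset.mul_sum]
  refine Finset.sum_congr rfl fun k _ => ?_
  rw [Finset.mul_sum, Finset.mul_sum]
  refine Finset.sum_congr rfl fun l _ => ?_
  ring

/-- the algebraic identity for the weights -/
lemma ep_sum (s : Finset ℤ) (α : ℤ → ℂ) (ζ : ℂ) :
    ∑ k ∈ s, ∑ l ∈ s, (sg (0 + 0) * (α k * (starRingEnd ℂ) (α l))) *
      (ep2 (0 + k) (0 - k) (-0 - l) (-0 + l) * ζ ^ (0 + k + (0 - k) + (-0 - l) + (-0 + l))) =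
      ((1 / 3 * ‖∑ k ∈ s, α k‖ ^ 2 + 2 / 3 * ‖∑ k ∈ s, sg k * α k‖ ^ 2 : ℝ) : ℂ) := by
  have e3 : ∀ k l : ℤ, ζ ^ (0 + k + (0 - k) + (-0 - l) + (-0 + l)) = 1 := by
    intro k l
    rw [show (0 : ℤ) + k + (0 - k) + (-0 - l) + (-0 + l) = 0 by ring]
    exact zpow_zero ζ
  have e4 : ∀ k l : ℤ, sg (0 + 0) * (α k * (starRingEnd ℂ) (α l)) *
      ep2 (0 + k) (0 - k) (-0 - l) (-0 + l) = (α k * (starRingEnd ℂ) (α l)) *
      (1 / 3 + 2 / 3 * (sg k * sg l)) := by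
    intro k l
    have h1 := ep2_FA 0 0 k l
    rw [if_pos (by simp)] at h1
    rw [← h1]; ring
  have e5 : ∑ k ∈ s, ∑ l ∈ s, (α k * (starRingEnd ℂ) (α l)) *
      (1 / 3 + 2 / 3 * (sg k * sg l)) =
      1 / 3 * ((∑ k ∈ s, α k) * ∑ l ∈ s, (starRingEnd ℂ) (α l)) +
      2 / 3 * ((∑ k ∈ s, sg k * α k) * ∑ l ∈ s, (starRingEnd ℂ) (sg l * α l)) := by
    rw [Finset.sum_mul_sum, Finset.sum_mul_sum, Finset.mul_sum, Finset.mul_sum,
      ← Finset.sum_add_distrib]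
    refine Finset.sum_congr rfl fun k _ => ?_
    rw [Finset.mul_sum, Finset.mul_sum, ← Finset.sum_add_distrib]
    refine Finset.sum_congr rfl fun l _ => ?_
    rw [map_mul, sg_conj]; ring
  simp only [e3, mul_one]
  simp only [e4]
  rw [e5, conj_sum_mul, conj_sum_mul]
  push_cast
  ring

lemma cc_zero (M : ℕ → ℂ → ℂ) (z : ℂ) : cc M 0 0 z = M 0 z := by
  unfold cc MZ
  simp

lemma ep2_zero : ep2 0 0 0 0 = 1 := by
  unfold ep2 eps
  simp

theorem e1 : S_E1 := by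
  intro m ν Ω a h u K T Hy φ hφ hφ0 s α ε hε
  have := Hy.mk1
  obtain ⟨c0, hc0⟩ : ∃ c0 : ℝ, c0 = 1 / 3 * ‖∑ k ∈ s, α k‖ ^ 2 +
    2 / 3 * ‖∑ k ∈ s, sg k * α k‖ ^ 2 := ⟨_, rfl⟩
  have hBΩ : interior K ⊆ Ω := interior_subset.trans Hy.hKΩ
  have hmB : ∀ K' : Set ℂ, IsCompact K' → K' ⊆ interior K → MemLp m 2 (volume.restrict K') :=
    fun K' hK' hKB => Hy.hm K' hK' (hKB.trans hBΩ)
  have hml : ∀ k, ML (interior K) (MM m ea ν k) := fun k =>
    MM_ml (ν := ν) ea_meas ea_norm hmB k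
  have gs := gauss_eq hml hφ hφ0 0 0 s α
  have key := fam_rel Hy.hm Hy.hp Hy.H Hy.hK Hy.hKΩ hφ hφ0 (Finset.insertNone (s ×ˢ s))
    (fun o : Option (ℤ × ℤ) => o.elim (-(c0 : ℂ))
      (fun p => sg (0 + 0) * (α p.1 * (starRingEnd ℂ) (α p.2))))
    (fun o : Option (ℤ × ℤ) => o.elim (0, 0, 0, 0)
      (fun p => ((0 + p.1, 0 - p.1, -0 - p.2, -0 + p.2) : ℤ × ℤ × ℤ × ℤ)))
    (C := 0) (fun ζ _ => by
      rw [Finset.sum_insertNone]
      simp only [Option.elim_none, Option.elim_some]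
      rw [Finset.sum_product, ep_sum s α ζ, ← hc0, ep2_zero]
      simp) hε
  refine key.mono fun n hn => ?_
  rw [Finset.sum_insertNone, Finset.sum_insertNone] at hn
  simp only [Option.elim_none, Option.elim_some] at hn
  rw [Finset.sum_product, Finset.sum_product, FA_sq Hy.H Hy.hKΩ hφ 0 0 s α n] at hn
  -- the fourth moment
  have u4 : ∫ z, (φ z : ℂ) * (W1 a (h n) (u n) 0 z * W1 a (h n) (u n) 0 z *
      W1 a (h n) (u n) 0 z * W1 a (h n) (u n) 0 z) = ((∫ z, φ z * u n z ^ 4 : ℝ) : ℂ) := by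
    rw [← integral_complex_ofReal]
    congr 1; funext z
    have : W1 a (h n) (u n) 0 z = (u n z : ℂ) := rfl
    rw [this]
    push_cast; ring
  have m0 : ∀ z, MM m ea ν 0 z = (m z : ℂ) := fun z => MM_0 z
  have g4 : ∫ z, (φ z : ℂ) * GG' (MM m ea ν) 0 0 0 0 z =
      ((3 * ∫ z, φ z * (m z * m z) : ℝ) : ℂ) := by
    rw [← integral_const_mul, ← integral_complex_ofReal]
    congr 1; funext z
    simp only [GG', cc_zero, m0]
    push_cast; ring
  have g2 : ∫ z, (φ z : ℂ) * (cc (MM m ea ν) 0 0 z * cc (MM m ea ν) (-0) (-0) z) =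
      ((∫ z, φ z * (m z * m z) : ℝ) : ℂ) := by
    rw [← integral_complex_ofReal]
    congr 1; funext z
    rw [neg_zero, cc_zero, m0]
    push_cast; ring
  have sg0 : sg (0 + 0) = 1 := sg_even (by simp)
  rw [g2, sg0] at gs
  rw [u4, g4, sg0] at hn
  obtain ⟨X, hX⟩ : ∃ X, X = ∫ z, φ z * ‖FA (ww a h (fun n z => (u n z : ℂ))) 0 0 s α n z‖ ^ 2 :=
    ⟨_, rfl⟩
  obtain ⟨Mm, hMm⟩ : ∃ Mm, Mm = ∫ z, φ z * (m z * m z) := ⟨_, rfl⟩
  obtain ⟨U, hU⟩ : ∃ U, U = ∫ z, φ z * u n z ^ 4 := ⟨_, rfl⟩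
  obtain ⟨S, hS⟩ : ∃ S, S = ‖∑ k ∈ s, sg k * α k‖ ^ 2 := ⟨_, rfl⟩
  obtain ⟨G, hG⟩ : ∃ G : ℂ, G = ∑ k ∈ s, ∑ l ∈ s, (1 * (α k * (starRingEnd ℂ) (α l))) *
      ∫ z, (φ z : ℂ) * GG' (MM m ea ν) (0 + k) (0 - k) (-0 - l) (-0 + l) z := ⟨_, rfl⟩
  rw [← hG, ← hMm, ← hS] at gs
  rw [← hX, ← hMm, ← hU, ← hG] at hn
  rw [← hX, ← hMm, ← hU, ← hS, hS, ← hc0, ← hS]
  have hSw : Sw (MM m ea ν) φ s α = ∑ k ∈ s, ∑ l ∈ s, ‖α k‖ * ‖α l‖ *
        (fK (MM m ea ν) φ (k - l) + fK (MM m ea ν) φ (0 - 0 + k + l)) := rfl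
  rw [← hSw] at gs
  have e2 : (((X - (Mm * S + c0 * (U - 3 * Mm)) : ℝ)) : ℂ) =
      ((-(c0 : ℂ) * (U : ℂ) + (X : ℂ)) - (-(c0 : ℂ) * ((3 * Mm : ℝ) : ℂ) + G)) +
      (G - 1 * (Mm : ℂ) * (S : ℂ)) := by
    push_cast
    ring
  have e3 : |X - (Mm * S + c0 * (U - 3 * Mm))| =
      ‖(((X - (Mm * S + c0 * (U - 3 * Mm)) : ℝ)) : ℂ)‖ := by
    rw [norm_real, Real.norm_eq_abs]
  rw [e3, e2]
  refine (norm_add_le _ _).trans ?_
  have h5 := add_le_add hn gs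
  refine h5.trans ?_
  linarith

end

end Pool.Agent.P8H86.VC
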