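import Pool.Agent.P8H31.VC.Stm5
import Pool.Agent.P8H86.VC.GE1

/-!
Project VC (helper31), package FE1, by helper86: exact second moments of the combinations of products,
without the bound for the fourth moments.
-/

set_option autoImplicit false
open MeasureTheory Filter Topology Complex ProbabilityTheory
open scoped ContDiff ENNReal

namespace Pool.Agent.P8H86.VC

open Pool.Agent.W745.RW Pool.Agent.TH294.RS Pool.Agent.TH294.RG Pool.Agent.P8H31.VC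

noncomputable section

theorem fe1 : S_FE1 := by
  intro m ν Ω a h u K Hy φ hφ hφ0 i j s α ε hε
  have := Hy.mk1
  obtain ⟨c0, hc0⟩ : ∃ c0 : ℝ, c0 = 1 / 3 * ‖∑ k ∈ s, α k‖ ^ 2 +
    kap i j * ‖∑ k ∈ s, sg k * α k‖ ^ 2 := ⟨_, rfl⟩
  have hBΩ : interior K ⊆ Ω := interior_subset.trans Hy.hKΩ
  have hmB : ∀ K' : Set ℂ, IsCompact K' → K' ⊆ interior K → MemLp m 2 (volume.restrict K') :=
    fun K' hK' hKB => Hy.hm K' hK' (hKB.trans hBΩ)
  have hml : ∀ k, ML (interior K) (MM m ea ν k) := fun k =>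
    MM_ml (ν := ν) ea_meas ea_norm hmB k
  have gs := gauss_eq hml hφ hφ0 i j s α
  have key := fam_rel Hy.hm Hy.hp Hy.H Hy.hK Hy.hKΩ hφ hφ0 (Finset.insertNone (s ×ˢ s))
    (fun o : Option (ℤ × ℤ) => o.elim (-(c0 : ℂ))
      (fun p => sg (i + j) * (α p.1 * (starRingEnd ℂ) (α p.2))))
    (fun o : Option (ℤ × ℤ) => o.elim (0, 0, 0, 0)
      (fun p => ((i + p.1, j - p.1, -i - p.2, -j + p.2) : ℤ × ℤ × ℤ × ℤ)))
    (C := 0) (fun ζ _ => by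
      rw [Finset.sum_insertNone]
      simp only [Option.elim_none, Option.elim_some]
      rw [Finset.sum_product, ep_sumg i j s α ζ, ← hc0, ep2_zero]
      simp) hε
  refine key.mono fun n hn => ?_
  rw [Finset.sum_insertNone, Finset.sum_insertNone] at hn
  simp only [Option.elim_none, Option.elim_some] at hn
  rw [Finset.sum_product, Finset.sum_product, FA_sq Hy.H Hy.hKΩ hφ i j s α n] at hn
  -- the fourth moment
  have u4 : ∫ z, (φ z : ℂ) * (W1 a (h n) (u n) 0 z * W1 a (h n) (u n) 0 z *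
      W1 a (h n) (u n) 0 z * W1 a (h n) (u n) 0 z) = ((∫ z, φ z * u n z ^ 4 : ℝ) : ℂ) := by
    rw [← integral_complex_ofReal]
    congr 1; funext z
    have : W1 a (h n) (u n) 0 z = (u n z : ℂ) := rfl
    rw [this]
    push_cast; ring
  have m0 : ∀ z, MM m ea ν 0 z = (m z : ℂ) := fun z => MM_0 z
  have g4 : ∫ z, (φ z : ℂ) * GG' (MM m ea ν) 0 0 0 0 z =
      ((3 * ∫ z, φ z * (m z * m z) : ℝ) : ℂ) := by
    rw [← integral_const_mul, ← integral_complex_ofReal]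
    congr 1; funext z
    simp only [GG', cc_zero, m0]
    push_cast; ring
  have g2 : sg (i + j) * (∫ z, (φ z : ℂ) * (cc (MM m ea ν) i j z *
      cc (MM m ea ν) (-i) (-j) z)) =
      ((∫ z, φ z * ‖cc (MM m ea ν) i j z‖ ^ 2 : ℝ) : ℂ) := by
    rw [← integral_complex_ofReal, ← integral_const_mul]
    congr 1; funext z
    have h1 := cc_conj (M := MM m ea ν) (z := z) (by rw [m0, conj_ofReal]) i j
    have h2 : cc (MM m ea ν) i j z * (starRingEnd ℂ) (cc (MM m ea ν) i j z) =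
        ((‖cc (MM m ea ν) i j z‖ ^ 2 : ℝ) : ℂ) := by
      rw [Complex.mul_conj, Complex.normSq_eq_norm_sq]
    push_cast at h2 ⊢
    rw [← h2, ← h1]
    ring
  rw [g2] at gs
  rw [u4, g4] at hn
  obtain ⟨X, hX⟩ : ∃ X, X = ∫ z, φ z * ‖FA (ww a h (fun n z => (u n z : ℂ))) i j s α n z‖ ^ 2 :=
    ⟨_, rfl⟩
  obtain ⟨Mm, hMm⟩ : ∃ Mm, Mm = ∫ z, φ z * (m z * m z) := ⟨_, rfl⟩
  obtain ⟨Mc, hMc⟩ : ∃ Mc, Mc = ∫ z, φ z * ‖cc (MM m ea ν) i j z‖ ^ 2 := ⟨_, rfl⟩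
  obtain ⟨U, hU⟩ : ∃ U, U = ∫ z, φ z * u n z ^ 4 := ⟨_, rfl⟩
  obtain ⟨S, hS⟩ : ∃ S, S = ‖∑ k ∈ s, sg k * α k‖ ^ 2 := ⟨_, rfl⟩
  obtain ⟨G, hG⟩ : ∃ G : ℂ, G = ∑ k ∈ s, ∑ l ∈ s,
      (sg (i + j) * (α k * (starRingEnd ℂ) (α l))) *
      ∫ z, (φ z : ℂ) * GG' (MM m ea ν) (i + k) (j - k) (-i - l) (-j + l) z := ⟨_, rfl⟩
  rw [← hG, ← hMc, ← hS] at gs
  rw [← hX, ← hMm, ← hU, ← hG] at hn
  rw [← hX, ← hMm, ← hMc, ← hU, ← hS, hS, ← hc0, ← hS]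
  have hSw : Swg (MM m ea ν) φ i j s α = ∑ k ∈ s, ∑ l ∈ s, ‖α k‖ * ‖α l‖ *
        (fK (MM m ea ν) φ (k - l) + fK (MM m ea ν) φ (i - j + k + l)) := rfl
  rw [← hSw] at gs
  have e2 : (((X - (Mc * S + c0 * (U - 3 * Mm)) : ℝ)) : ℂ) =
      ((-(c0 : ℂ) * (U : ℂ) + (X : ℂ)) - (-(c0 : ℂ) * ((3 * Mm : ℝ) : ℂ) + G)) +
      (G - (Mc : ℂ) * (S : ℂ)) := by
    push_cast
    ring
  have e3 : |X - (Mc * S + c0 * (U - 3 * Mm))| =
      ‖(((X - (Mc * S + c0 * (U - 3 * Mm)) : ℝ)) : ℂ)‖ := by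
    rw [norm_real, Real.norm_eq_abs]
  rw [e3, e2]
  refine (norm_add_le _ _).trans ?_
  have h5 := add_le_add hn gs
  refine h5.trans ?_
  linarith

end

end Pool.Agent.P8H86.VC
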