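import Pool.Agent.P8H31.VC.Stm4
import Pool.Agent.P8H86.VC.P1

/-!
Project VC (helper31), package GP1 (telescoping, general weights), by helper86.
-/

set_option autoImplicit false
open MeasureTheory Filter Topology Complex
open scoped ContDiff ENNReal

namespace Pool.Agent.P8H86.VC

open Pool.Agent.W745.RW Pool.Agent.TH294.RS Pool.Agent.TH294.RG Pool.Agent.TH421.DF
open Pool.Agent.TH421.AC Pool.Agent.P8H31.NZ Pool.Agent.P8H31.VC

noncomputable section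

variable {B : Set ℂ} {a : ℂ → ℝ} {h : ℕ → ℝ}

lemma teleg {w : ℤ → ℕ → ℂ → ℂ} {M : ℕ → ℂ → ℂ} (hB : IsOpen B) (H : AG B a h w M) (i j : ℤ)
    (k : ℕ) :
    ∃ P Q : ℕ → ℂ → ℂ, LB B 2 P ∧ LB B 2 Q ∧ ∀ n, ∀ z ∈ B,
      w i n z * w j n z = sg k * (w (i + k) n z * w (j - k) n z) + DM a (h n) (P n) z +
        (h n : ℂ) * Q n z := by
  induction k with
  | zero =>
    refine ⟨fun _ _ => 0, fun _ _ => 0, lb_zero, lb_zero, fun n z _ => ?_⟩
    have : sg ((0 : ℕ) : ℤ) = 1 := by simp [sg]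
    rw [this, DM_zero]
    simp
  | succ k ih =>
    obtain ⟨P, Q, hP, hQ, e⟩ := ih
    obtain ⟨e1, he1, h1⟩ := H.dn (i + (k : ℤ) + 1)
    obtain ⟨e2, he2, h2⟩ := H.dn (j - (k : ℤ))
    have c1 : i + (k : ℤ) + 1 - 1 = i + k := by ring
    have c2 : j - (k : ℤ) - 1 = j - ((k + 1 : ℕ) : ℤ) := by push_cast; ring
    have c3 : i + (k : ℤ) + 1 = i + ((k + 1 : ℕ) : ℤ) := by push_cast; ring
    rw [c1] at h1
    rw [c2] at h2
    rw [c3] at h1
    have lf : LB B 2 (fun n z => w (i + ((k + 1 : ℕ) : ℤ)) n z * w (j - (k : ℤ)) n z) :=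
      (H.bd _).mul4 (H.bd _)
    have lg : LB B 2 (fun n z => e1 n z * w (j - (k : ℤ)) n z +
        w (i + ((k + 1 : ℕ) : ℤ)) n z * e2 n z) :=
      (he1.mul4 (H.bd _)).add ((H.bd _).mul4 he2)
    refine ⟨fun n z => P n z + (-sg k) * (w (i + ((k + 1 : ℕ) : ℤ)) n z * w (j - (k : ℤ)) n z),
      fun n z => Q n z + sg k * (e1 n z * w (j - (k : ℤ)) n z +
        w (i + ((k + 1 : ℕ) : ℤ)) n z * e2 n z),
      hP.add (lf.cmul _), hQ.add (lg.cmul _), fun n z hz => ?_⟩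
    have d1 := DM_ac (a := a) hB (hP.sm n) (lf.sm n) (h n) (-sg k) hz
    rw [d1]
    have d2 : DM a (h n) (fun z => w (i + ((k + 1 : ℕ) : ℤ)) n z * w (j - (k : ℤ)) n z) z =
        DM a (h n) (w (i + ((k + 1 : ℕ) : ℤ)) n) z * w (j - (k : ℤ)) n z +
          w (i + ((k + 1 : ℕ) : ℤ)) n z * DM a (h n) (w (j - (k : ℤ)) n) z := by
      simp only [DM]
      rw [db_mul (da hB ((H.bd _).sm n) hz) (da hB ((H.bd _).sm n) hz)]
      ring
    have s1 : sg ((k + 1 : ℕ) : ℤ) = - sg k := by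
      rw [show ((k + 1 : ℕ) : ℤ) = (k : ℤ) + 1 by push_cast; ring, sg_add]
      have : sg 1 = -1 := by simp [sg]
      rw [this]; ring
    rw [d2, h1 n z hz, h2 n z hz, s1, e n z hz]
    ring

lemma teleg_sum {w : ℤ → ℕ → ℂ → ℂ} {M : ℕ → ℂ → ℂ} (hB : IsOpen B) (H : AG B a h w M)
    (i j : ℤ) (N : ℕ) :
    ∃ P Q : ℕ → ℂ → ℂ, LB B 2 P ∧ LB B 2 Q ∧ ∀ n, ∀ z ∈ B,
      (N : ℂ) * (w i n z * w j n z) =
        (∑ k ∈ Finset.Icc 1 N, sg k * (w (i + k) n z * w (j - k) n z)) + DM a (h n) (P n) z +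
        (h n : ℂ) * Q n z := by
  induction N with
  | zero =>
    refine ⟨fun _ _ => 0, fun _ _ => 0, lb_zero, lb_zero, fun n z _ => ?_⟩
    rw [DM_zero]
    simp
  | succ N ih =>
    obtain ⟨P, Q, hP, hQ, e⟩ := ih
    obtain ⟨P', Q', hP', hQ', e'⟩ := teleg hB H i j (N + 1)
    refine ⟨fun n z => P n z + 1 * P' n z, fun n z => Q n z + Q' n z, hP.add (hP'.cmul 1),
      hQ.add hQ', fun n z hz => ?_⟩
    rw [DM_ac (a := a) hB (hP.sm n) (hP'.sm n) (h n) 1 hz,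
      Finset.sum_Icc_succ_top (by omega : 1 ≤ N + 1)]
    have h1 := e n z hz
    have h2 := e' n z hz
    push_cast at h1 h2 ⊢
    linear_combination h1 + h2

/-- real parts -/
lemma dc_re (hB : IsOpen B) (ha : ContDiffOn ℝ ∞ a B) {F0 F1 P Q : ℕ → ℂ → ℂ}
    (h0 : LB B 2 F0) (h1 : LB B 2 F1) (hP : LB B 2 P) (hQ : LB B 2 Q)
    (e : ∀ n, ∀ z ∈ B, F0 n z = F1 n z + DM a (h n) (P n) z + (h n : ℂ) * Q n z) :
    Dc B h (fun n z => (F0 n z).re) (fun n z => (F1 n z).re) := by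
  have ha' : ContDiffOn ℝ ∞ (fun z => (a z : ℂ)) B := ofRealCLM.contDiff.comp_contDiffOn ha
  have hda : ∀ v : ℂ, ContDiffOn ℝ ∞ (fun z => ((fderiv ℝ a z v : ℝ) : ℂ)) B := fun v =>
    ofRealCLM.contDiff.comp_contDiffOn (Pool.Agent.TH421.AC.rsd hB ha v)
  have laP : LB B 2 (fun n z => (a z : ℂ) * P n z) := hP.smulc ha'
  refine ⟨rb_re h0, rb_re h1, fun n z => ((a z : ℂ) * P n z).re,
    fun n z => (I * ((a z : ℂ) * P n z)).re,
    fun n z => (Q n z - (((fderiv ℝ a z 1 : ℝ) : ℂ) + I * ((fderiv ℝ a z I : ℝ) : ℂ)) *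
      P n z).re, rb_re laP, rb_re (laP.cmul I), rb_re ?_, fun n z hz => ?_⟩
  · exact hQ.sub (hP.smulc (c := fun z => ((fderiv ℝ a z 1 : ℝ) : ℂ) +
      I * ((fderiv ℝ a z I : ℝ) : ℂ)) ((hda 1).add (contDiffOn_const.mul (hda I))))
  · have dP := da hB (hP.sm n) hz
    have dA : DifferentiableAt ℝ (fun z => (a z : ℂ)) z := da hB ha' hz
    have fa : ∀ v : ℂ, fderiv ℝ (fun z => (a z : ℂ)) z v = ((fderiv ℝ a z v : ℝ) : ℂ) := by
      intro v
      have h1 : HasFDerivAt (fun z => ofRealCLM (a z)) (ofRealCLM.comp (fderiv ℝ a z)) z :=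
        ofRealCLM.hasFDerivAt.comp z (Pool.Agent.TH421.AC.rdA hB ha hz).hasFDerivAt
      have h2 : (fun z => (a z : ℂ)) = fun z => ofRealCLM (a z) := rfl
      rw [h2, h1.fderiv]; rfl
    have fm : ∀ v : ℂ, fderiv ℝ (fun z => (a z : ℂ) * P n z) z v =
        (a z : ℂ) * fderiv ℝ (P n) z v + ((fderiv ℝ a z v : ℝ) : ℂ) * P n z := by
      intro v
      rw [fderiv_fun_mul dA dP]
      simp only [add_apply, smul_apply, smul_eq_mul, fa]
      ring
    have dAP : DifferentiableAt ℝ (fun z => (a z : ℂ) * P n z) z := dA.mul dP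
    have g1 := fdre dAP 1
    have g2 : fderiv ℝ (fun z => (I * ((a z : ℂ) * P n z)).re) z I =
        (I * fderiv ℝ (fun z => (a z : ℂ) * P n z) z I).re := by
      rw [fdre (dAP.const_mul I) I, fd_cm dAP]
    rw [g1, g2, fm, fm]
    have h1 := congrArg Complex.re (e n z hz)
    refine h1.trans ?_
    simp only [DM, db, dx, dy, add_re, sub_re, mul_re, add_im, mul_im, ofReal_re,
      ofReal_im, I_re, I_im]
    ring

theorem gp1 : S_GP1 := by
  intro B a h u M hB H i j N hN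
  obtain ⟨P0, Q0, hP0, hQ0, e0⟩ := teleg_sum hB H i j N
  have hN0 : (N : ℂ) ≠ 0 := by exact_mod_cast hN.ne'
  obtain ⟨w, hw⟩ : ∃ w, w = ww a h (fun n z => (u n z : ℂ)) := ⟨_, rfl⟩
  rw [← hw] at H e0 ⊢
  have lF : LB B 2 (FG a h u i j N) := by
    have h1 : ∀ s : Finset ℤ, LB B 2 (fun n z => ∑ k ∈ s, (N : ℂ)⁻¹ * sg k *
        (w (i + k) n z * w (j - k) n z)) := by
      intro s
      classical
      induction s using Finset.induction_on with
      | empty =>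
        simp only [Finset.sum_empty]
        exact lb_zero
      | insert k s hk ih =>
        simp only [Finset.sum_insert hk]
        exact (((H.bd _).mul4 (H.bd _)).cmul _).add ih
    refine (h1 ((Finset.Icc 1 N).map Nat.castEmbedding)).congr fun n z _ => ?_
    rw [hw]
    rfl
  obtain ⟨P, hPd⟩ : ∃ P : ℕ → ℂ → ℂ, P = fun n z => (N : ℂ)⁻¹ * P0 n z := ⟨_, rfl⟩
  obtain ⟨Q, hQd⟩ : ∃ Q : ℕ → ℂ → ℂ, Q = fun n z => (N : ℂ)⁻¹ * Q0 n z := ⟨_, rfl⟩
  have hP : LB B 2 P := by rw [hPd]; exact hP0.cmul _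
  have hQ : LB B 2 Q := by rw [hQd]; exact hQ0.cmul _
  have lW : LB B 2 (fun n z => w i n z * w j n z) := (H.bd _).mul4 (H.bd _)
  have e1 : ∀ n, ∀ z ∈ B, w i n z * w j n z = FG a h u i j N n z + DM a (h n) (P n) z +
      (h n : ℂ) * Q n z := by
    intro n z hz
    have h1 := e0 n z hz
    have h2 : DM a (h n) (P n) z = (N : ℂ)⁻¹ * DM a (h n) (P0 n) z := by
      rw [hPd]
      exact DM_cm (a := a) (h n) (da hB (hP0.sm n) hz) _
    have h3 : FG a h u i j N n z = (N : ℂ)⁻¹ * ∑ k ∈ Finset.Icc 1 N, sg k *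
        (w (i + k) n z * w (j - k) n z) := by
      unfold FG FA
      rw [← hw, Finset.sum_map, Finset.mul_sum]
      refine Finset.sum_congr rfl fun k _ => ?_
      rw [Nat.castEmbedding_apply]
      ring
    have h5 : Q n z = (N : ℂ)⁻¹ * Q0 n z := by rw [hQd]
    rw [h2, h3, h5]
    have h6 : w i n z * w j n z = (N : ℂ)⁻¹ * ((N : ℂ) * (w i n z * w j n z)) := by
      field_simp
    rw [h6, h1]
    ring
  refine ⟨dc_re hB H.sa lW lF hP hQ e1, ?_⟩
  have k2 := dc_re (a := a) (h := h) hB H.sa (lW.cmul (-I)) (lF.cmul (-I)) (hP.cmul (-I))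
    (hQ.cmul (-I)) (fun n z hz => by
      rw [DM_cm (a := a) (h n) (da hB (hP.sm n) hz) (-I), e1 n z hz]
      ring)
  have im1 : ∀ q : ℂ, (-I * q).re = q.im := by
    intro q
    simp
  simp only [im1] at k2
  exact k2

end

end Pool.Agent.P8H86.VC
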