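import Pool.Agent.P8H31.VC.Stm

/-!
Project VC (helper31), package GR (growth of the semiclassical derivatives), by helper86.
-/

set_option autoImplicit false
open MeasureTheory Filter Topology Complex
open scoped ContDiff ENNReal

namespace Pool.Agent.P8H86.VC

open Pool.Agent.W745.RW Pool.Agent.TH294.RS Pool.Agent.TH294.RG Pool.Agent.TH421.DF
open Pool.Agent.TH421.AC Pool.Agent.P8H31.NZ Pool.Agent.P8H31.VC

noncomputable section

variable {B : Set ℂ} {h : ℕ → ℝ}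

/-- real commutation of derivatives -/
lemma rfd_comm (hB : IsOpen B) {f : ℂ → ℝ} (hf : ContDiffOn ℝ ∞ f B) {z : ℂ}
    (hz : z ∈ B) (a b : ℂ) : fderiv ℝ (fun w => fderiv ℝ f w b) z a =
      fderiv ℝ (fun w => fderiv ℝ f w a) z b := by
  have hfa : ContDiffAt ℝ ∞ f z := hf.contDiffAt (hB.mem_nhds hz)
  have hs : IsSymmSndFDerivAt ℝ f z := hfa.isSymmSndFDerivAt (by
    simp only [minSmoothness_of_isRCLikeNormedField]
    exact (WithTop.coe_le_coe.mpr (le_top : (2 : ℕ∞) ≤ ⊤) :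
      ((2 : ℕ∞) : WithTop ℕ∞) ≤ ((⊤ : ℕ∞) : WithTop ℕ∞)))
  have hd : DifferentiableAt ℝ (fderiv ℝ f) z := by
    have h1 : ContDiffOn ℝ ∞ (fderiv ℝ f) B := hf.fderiv_of_isOpen hB (by simp)
    exact (h1.contDiffAt (hB.mem_nhds hz)).differentiableAt (by simp)
  have key : ∀ p q : ℂ, fderiv ℝ (fun w => fderiv ℝ f w q) z p = fderiv ℝ (fderiv ℝ f) z p q := by
    intro p q
    rw [fderiv_clm_apply hd (differentiableAt_const q)]
    simp
  rw [key, key]
  exact hs a b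

lemma rd_cg (hB : IsOpen B) {F G : ℕ → ℂ → ℝ} (e : ∀ n, ∀ z ∈ B, F n z = G n z) (v : ℂ) :
    ∀ n, ∀ z ∈ B, rd h v F n z = rd h v G n z := by
  intro n z hz
  have : F n =ᶠ[𝓝 z] G n := by
    filter_upwards [hB.mem_nhds hz] with w hw
    exact e n w hw
  show h n * fderiv ℝ (F n) z v = h n * fderiv ℝ (G n) z v
  rw [this.fderiv_eq]

lemma rd_rd (hB : IsOpen B) {F : ℕ → ℂ → ℝ} (hF : ∀ n, ContDiffOn ℝ ∞ (F n) B) (a b : ℂ) (n : ℕ)
    {z : ℂ} (hz : z ∈ B) : rd h a (rd h b F) n z =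
      h n ^ 2 * fderiv ℝ (fun w => fderiv ℝ (F n) w b) z a := by
  show h n * fderiv ℝ (fun w => h n * fderiv ℝ (F n) w b) z a = _
  rw [fderiv_const_mul (rdA hB (rsd hB (hF n) b) hz)]
  simp only [smul_apply, smul_eq_mul]; ring

lemma rd_comm (hB : IsOpen B) {F : ℕ → ℂ → ℝ} (hF : ∀ n, ContDiffOn ℝ ∞ (F n) B) (a b : ℂ) (n : ℕ)
    {z : ℂ} (hz : z ∈ B) : rd h a (rd h b F) n z = rd h b (rd h a F) n z := by
  rw [rd_rd hB hF a b n hz, rd_rd hB hF b a n hz, rfd_comm hB (hF n) hz]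

/-- near solutions -/
structure Near (B : Set ℂ) (h : ℕ → ℝ) (ρ : ℂ → ℝ) (H : ℕ → ℂ → ℝ) : Prop where
  sm : ∀ n, ContDiffOn ℝ ∞ (H n) B
  mm : ∀ k, MK2 B h k (cx H)
  ex : ∃ E : ℕ → ℂ → ℝ, (∀ n, ContDiffOn ℝ ∞ (E n) B) ∧ (∀ k, MK2 B h k (cx E)) ∧
    ∀ n, ∀ z ∈ B, rd h 1 (rd h 1 H) n z + rd h I (rd h I H) n z =
      -(ρ z * H n z) + h n * E n z

lemma near_rd (hB : IsOpen B) (hh : Tendsto h atTop (𝓝 0)) {ρ : ℂ → ℝ}
    (hρ : ContDiffOn ℝ ∞ ρ B) {H : ℕ → ℂ → ℝ} (hH : Near B h ρ H) {v : ℂ} (hv : v = 1 ∨ v = I) :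
    Near B h ρ (rd h v H) := by
  obtain ⟨E, sE, mE, eq⟩ := hH.ex
  have mkv : ∀ {G : ℕ → ℂ → ℝ}, (∀ n, ContDiffOn ℝ ∞ (G n) B) → (∀ k, MK2 B h k (cx G)) →
      ∀ k, MK2 B h k (cx (rd h v G)) := by
    intro G sG mG k
    rcases hv with rfl | rfl
    · exact (mk_rd hB sG (mG (k + 1))).1
    · exact (mk_rd hB sG (mG (k + 1))).2
  have sρ := rsd hB hρ v
  refine ⟨rd_sm hB hH.sm v, mkv hH.sm hH.mm,
    fun n z => rd h v E n z - fderiv ℝ ρ z v * H n z, ?_, ?_, ?_⟩
  · intro n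
    exact (rd_sm hB sE v n).sub (sρ.mul (hH.sm n))
  · intro k
    have h1 := mkv sE mE k
    have h2 : MK2 B h k (fun n z => ((fderiv ℝ ρ z v : ℝ) : ℂ) * cx H n z) :=
      (hH.mm k).smulc hB hh (ofRealCLM.contDiff.comp_contDiffOn sρ)
    refine (h1.sub hB hh h2).congr hB fun n z _ => ?_
    simp only [cx]
    push_cast
    ring
  · intro n z hz
    have s1 : ∀ a : ℂ, ∀ n, ContDiffOn ℝ ∞ (rd h a H n) B := fun a => rd_sm hB hH.sm a
    have s2 : ∀ a : ℂ, ∀ n, ContDiffOn ℝ ∞ (rd h a (rd h a H) n) B := fun a => rd_sm hB (s1 a) a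
    have c1 : ∀ a : ℂ, rd h a (rd h a (rd h v H)) n z = rd h v (rd h a (rd h a H)) n z := by
      intro a
      rw [rd_cg hB (fun n z hz => rd_comm hB hH.sm a v n hz) a n z hz]
      exact rd_comm hB (s1 a) a v n hz
    have d1 := (rdA hB (s2 1 n) hz).hasFDerivAt
    have d2 := (rdA hB (s2 I n) hz).hasFDerivAt
    have e1 : rd h v (rd h 1 (rd h 1 H)) n z + rd h v (rd h I (rd h I H)) n z =
        rd h v (fun n z => rd h 1 (rd h 1 H) n z + rd h I (rd h I H) n z) n z := by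
      have := (d1.add d2).fderiv
      have e3 := congrArg (fun L : ℂ →L[ℝ] ℝ => L v) this
      simp only [add_apply] at e3
      show h n * _ + h n * _ = h n * _
      rw [← mul_add]
      congr 1
      exact e3.symm
    have e2 : rd h v (fun n z => rd h 1 (rd h 1 H) n z + rd h I (rd h I H) n z) n z =
        rd h v (fun n z => -(ρ z * H n z) + h n * E n z) n z := rd_cg hB eq v n z hz
    have d3 := (rdA hB hρ hz).hasFDerivAt
    have d4 := (rdA hB (hH.sm n) hz).hasFDerivAt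
    have d5 := (rdA hB (sE n) hz).hasFDerivAt
    have d6 := (((d3.mul d4).neg).add (d5.const_mul (h n))).fderiv
    have e4 := congrArg (fun L : ℂ →L[ℝ] ℝ => L v) d6
    rw [c1 1, c1 I, e1, e2]
    show h n * fderiv ℝ (fun z => -(ρ z * H n z) + h n * E n z) z v =
      -(ρ z * (h n * fderiv ℝ (H n) z v)) +
        h n * (h n * fderiv ℝ (E n) z v - fderiv ℝ ρ z v * H n z)
    have e5 : fderiv ℝ (fun z => -(ρ z * H n z) + h n * E n z) z v =
        -(ρ z * fderiv ℝ (H n) z v + H n z * fderiv ℝ ρ z v) + h n * fderiv ℝ (E n) z v := by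
      refine Eq.trans e4 ?_
      simp only [add_apply, neg_apply, smul_apply, smul_eq_mul]
      try ring
    rw [e5]
    ring

/-- integration by parts -/
lemma ibp (hB : IsOpen B) {H : ℕ → ℂ → ℝ} (hH : ∀ n, ContDiffOn ℝ ∞ (H n) B)
    {φ : ℂ → ℝ} (hφ : TF B φ) (v : ℂ) (n : ℕ) :
    ∫ z, φ z * rd h v H n z ^ 2 = -(∫ z, φ z * (H n z * rd h v (rd h v H) n z)) -
      h n * ∫ z, fderiv ℝ φ z v * (H n z * rd h v H n z) := by
  obtain ⟨S, hS⟩ : ∃ S : Set ℂ, S = tsupport φ := ⟨_, rfl⟩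
  have hSc : IsCompact S := by rw [hS]; exact hφ.2.1
  have hSB : S ⊆ B := by rw [hS]; exact hφ.2.2
  have z0 : ∀ z, z ∉ S → φ z = 0 := fun z hz => image_eq_zero_of_notMem_tsupport (by rwa [hS] at hz)
  have z1 : ∀ z, z ∉ S → fderiv ℝ φ z v = 0 := fun z hz => by
    rw [fderiv_of_notMem_tsupport ℝ (by rwa [hS] at hz)]; rfl
  have cφ : Continuous φ := hφ.1.continuous
  have cφ' : Continuous (fun z => fderiv ℝ φ z v) :=
    ((hφ.1.fderiv_right (m := ∞) le_rfl).clm_apply contDiff_const).continuous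
  have sH := hH n
  have sH1 := rsd hB sH v
  obtain ⟨U, hU⟩ : ∃ U : ℂ → ℝ, U = fun z => φ z * (H n z * fderiv ℝ (H n) z v) := ⟨_, rfl⟩
  have sU : ContDiffOn ℝ ∞ U B := by
    rw [hU]; exact hφ.1.contDiffOn.mul (sH.mul sH1)
  have zU : ∀ z, z ∉ S → U z = 0 := fun z hz => by
    rw [hU]; show φ z * _ = 0; rw [z0 z hz, zero_mul]
  have nhU : ∀ z, z ∉ S → U =ᶠ[𝓝 z] fun _ => 0 := by
    intro z hz
    filter_upwards [hSc.isClosed.isOpen_compl.mem_nhds (hz : z ∈ Sᶜ)] with w hw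
    exact zU w hw
  have gU : ContDiff ℝ ∞ U := by
    refine contDiff_iff_contDiffAt.2 fun w => ?_
    by_cases hw : w ∈ B
    · exact sU.contDiffAt (hB.mem_nhds hw)
    · exact contDiffAt_const.congr_of_eventuallyEq (nhU w fun h => hw (hSB h))
  obtain ⟨iU, jU⟩ := Pool.Agent.W366.RW.int_zero U gU (HasCompactSupport.intro hSc zU) v
  have key : ∀ z, φ z * rd h v H n z ^ 2 = h n ^ 2 * fderiv ℝ U z v -
      φ z * (H n z * rd h v (rd h v H) n z) -
      h n * (fderiv ℝ φ z v * (H n z * rd h v H n z)) := by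
    intro z
    by_cases hz : z ∈ B
    · have d1 : HasFDerivAt φ (fderiv ℝ φ z) z :=
        (hφ.1.differentiable (by simp) z).hasFDerivAt
      have d2 : HasFDerivAt (H n) (fderiv ℝ (H n) z) z := (rdA hB sH hz).hasFDerivAt
      have d4 : HasFDerivAt (fun w => fderiv ℝ (H n) w v)
          (fderiv ℝ (fun w => fderiv ℝ (H n) w v) z) z := (rdA hB sH1 hz).hasFDerivAt
      have d5 := (d1.mul (d2.mul d4)).fderiv
      have e1 : fderiv ℝ U z v = φ z * (H n z * fderiv ℝ (fun w => fderiv ℝ (H n) w v) z v +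
          fderiv ℝ (H n) z v * fderiv ℝ (H n) z v) +
          (H n z * fderiv ℝ (H n) z v) * fderiv ℝ φ z v := by
        rw [hU]
        have e3 := congrArg (fun L : ℂ →L[ℝ] ℝ => L v) d5
        refine Eq.trans e3 ?_
        simp only [add_apply, smul_apply, smul_eq_mul, Pi.mul_apply]
        try ring
      rw [e1, rd_rd hB hH v v n hz]
      simp only [rd]; ring
    · have hzS : z ∉ S := fun h => hz (hSB h)
      rw [z0 z hzS, z1 z hzS, (nhU z hzS).fderiv_eq]; simp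
  have cH : ContinuousOn (H n) S := sH.continuousOn.mono hSB
  have cr : ContinuousOn (rd h v H n) S := (rd_sm hB hH v n).continuousOn.mono hSB
  have crr : ContinuousOn (rd h v (rd h v H) n) S :=
    (rd_sm hB (rd_sm hB hH v) v n).continuousOn.mono hSB
  have i2 : Integrable (fun z => φ z * (H n z * rd h v (rd h v H) n z)) :=
    rint hSc (cφ.continuousOn.mul (cH.mul crr)) fun z hz => by rw [z0 z hz, zero_mul]
  have i3 : Integrable (fun z => h n * (fderiv ℝ φ z v * (H n z * rd h v H n z))) :=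
    rint hSc (continuousOn_const.mul (cφ'.continuousOn.mul (cH.mul cr))) fun z hz => by
      rw [z1 z hz]; ring
  simp only [key]
  have k1 : Integrable (fun z => h n ^ 2 * fderiv ℝ U z v) := iU.const_mul _
  have k2 : Integrable (fun z => h n ^ 2 * fderiv ℝ U z v -
    φ z * (H n z * rd h v (rd h v H) n z)) := k1.sub i2
  rw [integral_sub k2 i3, integral_sub k1 i2, integral_const_mul, integral_const_mul, jU,
    mul_zero, zero_sub]

/-- a bound for `∫ φ F G` by the `L²` norms on the support -/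
lemma bd2 {S : Set ℂ} (hS : IsCompact S) {φ : ℂ → ℝ} (hφ : ContinuousOn φ S) {M : ℝ}
    (hM : ∀ z ∈ S, |φ z| ≤ M) (hM0 : 0 ≤ M) (h0 : ∀ z, z ∉ S → φ z = 0) {F G : ℂ → ℝ}
    (hF : ContinuousOn F S) (hG : ContinuousOn G S) {C D : ℝ} (hC : ∫ z in S, F z ^ 2 ≤ C)
    (hD : ∫ z in S, G z ^ 2 ≤ D) :
    -(∫ z, φ z * (F z * G z)) ≤ M * (C + D) := by
  refine (neg_le_abs _).trans ((abs_integral_le_integral_abs).trans ?_)
  rw [out_int (S := S) (fun z hz => by rw [h0 z hz]; simp)]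
  refine intK_lin hS hM0 ((hφ.mul (hF.mul hG)).abs) (hF.pow 2) (hG.pow 2) (fun z hz => ?_)
    hC hD
  show |φ z * (F z * G z)| ≤ M * (F z ^ 2 + G z ^ 2)
  rw [abs_mul]
  have h1 := hM z hz
  have h2 : |F z * G z| ≤ F z ^ 2 + G z ^ 2 := by
    rw [abs_le]
    constructor
    · nlinarith [sq_nonneg (F z + G z), sq_nonneg (F z), sq_nonneg (G z)]
    · nlinarith [sq_nonneg (F z - G z), sq_nonneg (F z), sq_nonneg (G z)]
  exact mul_le_mul h1 h2 (abs_nonneg _) hM0

/-- the energy of a near solution -/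
lemma step (hB : IsOpen B) (hp : ∀ n, 0 < h n) (hh : Tendsto h atTop (𝓝 0)) {ρ : ℂ → ℝ}
    (hρ : ContDiffOn ℝ ∞ ρ B) {H : ℕ → ℂ → ℝ} (hH : Near B h ρ H)
    {χ : ℂ → ℝ} (hχ : TF B χ) (hχ0 : ∀ z, 0 ≤ χ z) {v : ℂ} (hv : v = 1 ∨ v = I) {ε : ℝ}
    (hε : 0 < ε) :
    ∀ᶠ n in atTop, ∫ z, χ z * rd h v H n z ^ 2 ≤ (∫ z, χ z * (ρ z * H n z ^ 2)) + ε := by
  obtain ⟨E, sE, mE, eq⟩ := hH.ex
  obtain ⟨S, hS⟩ : ∃ S : Set ℂ, S = tsupport χ := ⟨_, rfl⟩
  have hSc : IsCompact S := by rw [hS]; exact hχ.2.1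
  have hSB : S ⊆ B := by rw [hS]; exact hχ.2.2
  have z0 : ∀ z, z ∉ S → χ z = 0 := fun z hz => image_eq_zero_of_notMem_tsupport (by rwa [hS] at hz)
  have z1 : ∀ v z, z ∉ S → fderiv ℝ χ z v = 0 := fun v z hz => by
    rw [fderiv_of_notMem_tsupport ℝ (by rwa [hS] at hz)]; rfl
  have cχ : Continuous χ := hχ.1.continuous
  have cχ' : ∀ v, Continuous (fun z => fderiv ℝ χ z v) := fun v =>
    ((hχ.1.fderiv_right (m := ∞) le_rfl).clm_apply contDiff_const).continuous
  obtain ⟨M, hM⟩ := hSc.exists_bound_of_continuousOn cχ.continuousOn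
  choose M' hM' using fun v => hSc.exists_bound_of_continuousOn (cχ' v).continuousOn
  have hM1 : ∀ z ∈ S, |χ z| ≤ |M| := fun z hz => (hM z hz).trans (le_abs_self M)
  have hM2 : ∀ v, ∀ z ∈ S, |fderiv ℝ χ z v| ≤ |M' v| := fun v z hz =>
    (hM' v z hz).trans (le_abs_self _)
  have s1 : ∀ a : ℂ, ∀ n, ContDiffOn ℝ ∞ (rd h a H n) B := fun a => rd_sm hB hH.sm a
  have s2 : ∀ a : ℂ, ∀ n, ContDiffOn ℝ ∞ (rd h a (rd h a H) n) B := fun a => rd_sm hB (s1 a) a
  obtain ⟨C0, _, b0⟩ := lb_re (hH.mm 0).lb hSc hSB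
  obtain ⟨C1, _, b1⟩ := lb_re (mk_rd hB hH.sm (hH.mm 1)).1.lb hSc hSB
  obtain ⟨C2, _, b2⟩ := lb_re (mk_rd hB hH.sm (hH.mm 1)).2.lb hSc hSB
  obtain ⟨C3, _, b3⟩ := lb_re (mE 0).lb hSc hSB
  obtain ⟨D, hD⟩ : ∃ D : ℝ, D = |M| * (C0 + C3) + |M' 1| * (C0 + C1) + |M' I| * (C0 + C2) :=
    ⟨_, rfl⟩
  have hev : ∀ᶠ n in atTop, h n * D ≤ ε := by
    have t : Tendsto (fun n => h n * D) atTop (𝓝 (0 * D)) := hh.mul_const D
    rw [zero_mul] at t
    exact (t.eventually (gt_mem_nhds hε)).mono fun n hn => hn.le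
  filter_upwards [b0, b1, b2, b3, hev] with n b0 b1 b2 b3 hn
  have cH : ContinuousOn (H n) S := (hH.sm n).continuousOn.mono hSB
  have cE : ContinuousOn (E n) S := (sE n).continuousOn.mono hSB
  have cr : ∀ a, ContinuousOn (rd h a H n) S := fun a => (s1 a n).continuousOn.mono hSB
  have crr : ∀ a, ContinuousOn (rd h a (rd h a H) n) S := fun a =>
    (s2 a n).continuousOn.mono hSB
  have cρ : ContinuousOn ρ S := hρ.continuousOn.mono hSB
  have q0 := bd2 hSc cχ.continuousOn hM1 (abs_nonneg M) z0 cH cE b0 b3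
  have q1 := bd2 hSc (cχ' 1).continuousOn (hM2 1) (abs_nonneg _) (z1 1) cH (cr 1) b0 b1
  have q2 := bd2 hSc (cχ' I).continuousOn (hM2 I) (abs_nonneg _) (z1 I) cH (cr I) b0 b2
  have t1 := ibp (h := h) hB hH.sm hχ 1 n
  have t2 := ibp (h := h) hB hH.sm hχ I n
  have ii : ∀ a, Integrable (fun z => χ z * (H n z * rd h a (rd h a H) n z)) := fun a =>
    rint hSc (cχ.continuousOn.mul (cH.mul (crr a))) fun z hz => by rw [z0 z hz, zero_mul]
  have iρ : Integrable (fun z => χ z * (ρ z * H n z ^ 2)) :=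
    rint hSc (cχ.continuousOn.mul (cρ.mul (cH.pow 2))) fun z hz => by rw [z0 z hz, zero_mul]
  have iE : Integrable (fun z => h n * (χ z * (H n z * E n z))) :=
    rint hSc (continuousOn_const.mul (cχ.continuousOn.mul (cH.mul cE))) fun z hz => by
      rw [z0 z hz]; ring
  have t3 : (∫ z, χ z * (H n z * rd h 1 (rd h 1 H) n z)) +
      (∫ z, χ z * (H n z * rd h I (rd h I H) n z)) =
      -(∫ z, χ z * (ρ z * H n z ^ 2)) + h n * ∫ z, χ z * (H n z * E n z) := by
    have iρ' : Integrable (fun z => -(χ z * (ρ z * H n z ^ 2))) := iρ.neg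
    rw [← integral_add (ii 1) (ii I), ← integral_neg, ← integral_const_mul,
      ← integral_add iρ' iE]
    congr 1
    funext z
    by_cases hz : z ∈ B
    · have := eq n z hz
      show χ z * (H n z * rd h 1 (rd h 1 H) n z) + χ z * (H n z * rd h I (rd h I H) n z) =
        -(χ z * (ρ z * H n z ^ 2)) + h n * (χ z * (H n z * E n z))
      linear_combination (χ z * H n z) * this
    · have hzS : z ∉ S := fun h => hz (hSB h)
      show χ z * (H n z * rd h 1 (rd h 1 H) n z) + χ z * (H n z * rd h I (rd h I H) n z) =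
        -(χ z * (ρ z * H n z ^ 2)) + h n * (χ z * (H n z * E n z))
      rw [z0 z hzS]; ring
  have p1 : 0 ≤ ∫ z, χ z * rd h 1 H n z ^ 2 :=
    integral_nonneg fun z => mul_nonneg (hχ0 z) (sq_nonneg _)
  have p2 : 0 ≤ ∫ z, χ z * rd h I H n z ^ 2 :=
    integral_nonneg fun z => mul_nonneg (hχ0 z) (sq_nonneg _)
  have tot : (∫ z, χ z * rd h 1 H n z ^ 2) + (∫ z, χ z * rd h I H n z ^ 2) ≤
      (∫ z, χ z * (ρ z * H n z ^ 2)) + ε := by
    have r0 := mul_le_mul_of_nonneg_left q0 (hp n).le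
    have r1 := mul_le_mul_of_nonneg_left q1 (hp n).le
    have r2 := mul_le_mul_of_nonneg_left q2 (hp n).le
    have r3 : h n * D = h n * (|M| * (C0 + C3)) + h n * (|M' 1| * (C0 + C1)) +
        h n * (|M' I| * (C0 + C2)) := by rw [hD]; ring
    linarith
  rcases hv with rfl | rfl <;> linarith

theorem gr : S_GR := by
  intro B h hB hp hh ρ hρ u hu hM eq χ hχ hχ0 b L hb hρb hL l
  have z0 : ∀ z, z ∉ tsupport χ → χ z = 0 := fun z hz => image_eq_zero_of_notMem_tsupport hz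
  have near : ∀ l : List Bool, Near B h ρ (wd h u l) := by
    intro l
    induction l with
    | nil =>
      refine ⟨hu, hM, fun _ _ => 0, fun _ => contDiffOn_const, fun k => ?_, fun n z hz => ?_⟩
      · have h1 := (hM k).smulc hB hh (c := fun _ => 0) contDiffOn_const
        refine h1.congr hB fun n z _ => ?_
        simp [cx]
      · rw [mul_zero, add_zero]
        exact eq n z hz
    | cons a l ih => exact near_rd hB hh hρ ih (dir_or a)
  induction l with
  | nil =>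
    intro ε hε
    refine hL.mono fun n hn => ?_
    have e : wd h u [] = u := rfl
    rw [e]
    simp only [List.length_nil, pow_zero, one_mul]
    linarith
  | cons a l ih =>
    intro ε hε
    have h1 := step hB hp hh hρ (near l) hχ hχ0 (dir_or a) (half_pos hε)
    have h2 := ih (ε / (2 * (b + 1))) (by positivity)
    filter_upwards [h1, h2] with n h1 h2
    have cχ : Continuous χ := hχ.1.continuous
    have cW : ContinuousOn (wd h u l n) (tsupport χ) :=
      ((near l).sm n).continuousOn.mono hχ.2.2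
    have cρ : ContinuousOn ρ (tsupport χ) := hρ.continuousOn.mono hχ.2.2
    have i1 : Integrable (fun z => χ z * (ρ z * wd h u l n z ^ 2)) :=
      rint hχ.2.1 (cχ.continuousOn.mul (cρ.mul (cW.pow 2))) fun z hz => by
        rw [z0 z hz, zero_mul]
    have i2 : Integrable (fun z => b * (χ z * wd h u l n z ^ 2)) :=
      rint hχ.2.1 (continuousOn_const.mul (cχ.continuousOn.mul (cW.pow 2))) fun z hz => by
        rw [z0 z hz]; ring
    have h3 : ∫ z, χ z * (ρ z * wd h u l n z ^ 2) ≤ b * ∫ z, χ z * wd h u l n z ^ 2 := by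
      rw [← integral_const_mul]
      refine integral_mono i1 i2 fun z => ?_
      show χ z * (ρ z * wd h u l n z ^ 2) ≤ b * (χ z * wd h u l n z ^ 2)
      by_cases hz : z ∈ tsupport χ
      · have h4 := mul_le_mul_of_nonneg_left (hρb z hz)
          (mul_nonneg (hχ0 z) (sq_nonneg (wd h u l n z)))
        linarith
      · rw [z0 z hz]; simp
    have h5 := mul_le_mul_of_nonneg_left h2 hb
    have h6 : b * (ε / (2 * (b + 1))) ≤ ε / 2 := by
      have : b * (ε / (2 * (b + 1))) = (ε / 2) * (b / (b + 1)) := by field_simp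
      rw [this]
      refine mul_le_of_le_one_right (by positivity) ?_
      rw [div_le_one (by positivity)]; linarith
    have h7 : b ^ (a :: l).length * L = b * (b ^ l.length * L) := by
      rw [List.length_cons, pow_succ]; ring
    have h8 : ∫ z, χ z * wd h u (a :: l) n z ^ 2 = ∫ z, χ z * rd h (dir a) (wd h u l) n z ^ 2 :=
      rfl
    rw [h8, h7]
    rw [mul_add] at h5
    linarith

end

end Pool.Agent.P8H86.VC


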